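import Mathlib

/-!
Asymptotic expansion of `∑_{k ≤ n} arctan (1/k)` in powers of `1/(n+1/2)²`.
-/

namespace Pool.Agent.H87.TanSum

open Finset

/-- the sum of `arctan (1/k)`, `k = 1..n` -/
noncomputable def SS (n : ℕ) : ℝ := ∑ k ∈ range n, Real.arctan (1 / ((k : ℝ) + 1))

/-- the truncated expansion -/
noncomputable def TT (N : ℝ) : ℝ :=
  Real.log N + 5 / 24 / N ^ 2 + (-19 / 192) / N ^ 4 + (755 / 8064) / N ^ 6

/-- the step error as a function of `t = 1/x` -/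
noncomputable def phi (t : ℝ) : ℝ :=
  Real.arctan t - (Real.log (1 + t / 2) - Real.log (1 - t / 2))
  - 5 / 24 * ((t / (1 + t / 2)) ^ 2 - (t / (1 - t / 2)) ^ 2)
  - (-19 / 192) * ((t / (1 + t / 2)) ^ 4 - (t / (1 - t / 2)) ^ 4)
  - 755 / 8064 * ((t / (1 + t / 2)) ^ 6 - (t / (1 - t / 2)) ^ 6)

lemma ratid {t : ℝ} (hp : 2 + t ≠ 0) (hm : 2 - t ≠ 0) (hq : 1 + t ^ 2 ≠ 0) :
    (t ^ 8 * (2537 / 256 + 17927 / 3072 * t ^ 2 + 60311 / 86016 * t ^ 4 +
      841 / 114688 * t ^ 6) / ((1 + t ^ 2) * ((2 + t) * (2 - t) / 4) ^ 7)) =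
    1 / (1 + t ^ 2) - (1 / (2 + t) + 1 / (2 - t)) -
      5 / 24 * (2 * (2 * t / (2 + t)) * (4 / (2 + t) ^ 2) -
        2 * (2 * t / (2 - t)) * (4 / (2 - t) ^ 2)) -
      -19 / 192 * (4 * (2 * t / (2 + t)) ^ 3 * (4 / (2 + t) ^ 2) -
        4 * (2 * t / (2 - t)) ^ 3 * (4 / (2 - t) ^ 2)) -
      755 / 8064 * (6 * (2 * t / (2 + t)) ^ 5 * (4 / (2 + t) ^ 2) -
        6 * (2 * t / (2 - t)) ^ 5 * (4 / (2 - t) ^ 2)) := by
  field_simp
  ring

lemma hasDeriv_phi {t : ℝ} (h0 : 0 ≤ t) (h1 : t ≤ 1) :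
    HasDerivAt phi (t ^ 8 * (2537 / 256 + 17927 / 3072 * t ^ 2 + 60311 / 86016 * t ^ 4 +
      841 / 114688 * t ^ 6) / ((1 + t ^ 2) * (1 - t ^ 2 / 4) ^ 7)) t := by
  have hp : (1 + t / 2) ≠ 0 := by positivity
  have hm : (1 - t / 2) ≠ 0 := by
    have : 0 < 1 - t / 2 := by linarith
    exact this.ne'
  have hp' : (2 + t) ≠ 0 := by positivity
  have hm' : (2 - t) ≠ 0 := by
    have : 0 < 2 - t := by linarith
    exact this.ne'
  have hq : (1 + t ^ 2) ≠ 0 := by positivity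
  have r1 : (1 + t / 2) = (2 + t) / 2 := by ring
  have r2 : (1 - t / 2) = (2 - t) / 2 := by ring
  have dp : HasDerivAt (fun t : ℝ => 1 + t / 2) (1 / 2) t := by
    simpa using ((hasDerivAt_id t).div_const 2).const_add 1
  have dm : HasDerivAt (fun t : ℝ => 1 - t / 2) (-(1 / 2)) t := by
    simpa using ((hasDerivAt_id t).div_const 2).const_sub 1
  have gp : HasDerivAt (fun t : ℝ => t / (1 + t / 2)) (4 / (2 + t) ^ 2) t := by
    have := (hasDerivAt_id t).div dp hp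
    refine this.congr_deriv ?_
    simp only [id]
    rw [r1]
    field_simp
    ring
  have gm : HasDerivAt (fun t : ℝ => t / (1 - t / 2)) (4 / (2 - t) ^ 2) t := by
    have := (hasDerivAt_id t).div dm hm
    refine this.congr_deriv ?_
    simp only [id]
    rw [r2]
    field_simp
    ring
  have e := ((((Real.hasDerivAt_arctan t).sub ((dp.log hp).sub (dm.log hm))).sub
    (((gp.pow 2).sub (gm.pow 2)).const_mul (5 / 24))).sub
    (((gp.pow 4).sub (gm.pow 4)).const_mul (-19 / 192))).sub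
    (((gp.pow 6).sub (gm.pow 6)).const_mul (755 / 8064))
  have e' : HasDerivAt phi _ t := e
  refine e'.congr_deriv ?_
  have hm2 : (1 - t ^ 2 / 4) = (2 + t) * (2 - t) / 4 := by ring
  rw [hm2, ratid hp' hm' hq]
  have g1 : t / (1 + t / 2) = 2 * t / (2 + t) := by rw [r1]; field_simp
  have g2 : t / (1 - t / 2) = 2 * t / (2 - t) := by rw [r2]; field_simp
  have g3 : 1 / 2 / (1 + t / 2) = 1 / (2 + t) := by rw [r1]; field_simp
  have g4 : -(1 / 2) / (1 - t / 2) = - (1 / (2 - t)) := by rw [r2]; field_simp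
  rw [g1, g2, g3, g4]
  norm_num

lemma phi_zero : phi 0 = 0 := by simp [phi]

lemma phi_bd {t : ℝ} (h0 : 0 ≤ t) (h1 : t ≤ 1) : |phi t| ≤ 130 * t ^ 9 := by
  have key := norm_image_sub_le_of_norm_deriv_le_segment' (f := phi) (a := 0) (b := t)
    (C := 130 * t ^ 8)
    (f' := fun t => (t ^ 8 * (2537 / 256 + 17927 / 3072 * t ^ 2 + 60311 / 86016 * t ^ 4 +
      841 / 114688 * t ^ 6) / ((1 + t ^ 2) * (1 - t ^ 2 / 4) ^ 7)))
    (fun x hx => (hasDeriv_phi hx.1 (hx.2.trans h1)).hasDerivWithinAt) ?_ t ⟨h0, le_refl t⟩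
  · rw [phi_zero, Real.norm_eq_abs, sub_zero] at key
    calc |phi t| ≤ 130 * t ^ 8 * (t - 0) := key
      _ = 130 * t ^ 9 := by ring
  · intro x hx
    have hx0 : 0 ≤ x := hx.1
    have hx1 : x ≤ 1 := (hx.2.le).trans h1
    have p2 : x ^ 2 ≤ 1 := pow_le_one₀ hx0 hx1
    have p4 : x ^ 4 ≤ 1 := pow_le_one₀ hx0 hx1
    have p6 : x ^ 6 ≤ 1 := pow_le_one₀ hx0 hx1
    have q1 : (3 / 4 : ℝ) ≤ 1 - x ^ 2 / 4 := by linarith
    have q2 : (3 / 4 : ℝ) ^ 7 ≤ (1 - x ^ 2 / 4) ^ 7 := pow_le_pow_left₀ (by norm_num) q1 7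
    have q3 : (3 / 4 : ℝ) ^ 7 ≤ (1 + x ^ 2) * (1 - x ^ 2 / 4) ^ 7 := by
      have : (1 : ℝ) ≤ 1 + x ^ 2 := by linarith [sq_nonneg x]
      nlinarith [sq_nonneg x, pow_nonneg (by norm_num : (0 : ℝ) ≤ 3 / 4) 7]
    have q4 : 0 < (1 + x ^ 2) * (1 - x ^ 2 / 4) ^ 7 := lt_of_lt_of_le (by positivity) q3
    rw [Real.norm_eq_abs, abs_of_nonneg (by positivity)]
    rw [div_le_iff₀ q4]
    have n1 : (2537 / 256 + 17927 / 3072 * x ^ 2 + 60311 / 86016 * x ^ 4 +
      841 / 114688 * x ^ 6 : ℝ) ≤ 130 * (3 / 4 : ℝ) ^ 7 := by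
      norm_num
      linarith
    have n2 : x ^ 8 ≤ t ^ 8 := pow_le_pow_left₀ hx0 hx.2.le 8
    have n3 : x ^ 8 * (2537 / 256 + 17927 / 3072 * x ^ 2 + 60311 / 86016 * x ^ 4 +
      841 / 114688 * x ^ 6 : ℝ) ≤ t ^ 8 * (130 * ((1 + x ^ 2) * (1 - x ^ 2 / 4) ^ 7)) :=
      mul_le_mul n2 (n1.trans (by linarith)) (by positivity) (by positivity)
    linarith

lemma step_eq (n : ℕ) : (SS (n + 1) - TT ((n : ℝ) + 1 + 1 / 2)) - (SS n - TT ((n : ℝ) + 1 / 2)) =
    phi (1 / ((n : ℝ) + 1)) := by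
  unfold SS TT phi
  rw [sum_range_succ]
  have hx : (0 : ℝ) < (n : ℝ) + 1 := by positivity
  set x : ℝ := (n : ℝ) + 1 with hxdef
  have hn : (n : ℝ) + 1 / 2 = x - 1 / 2 := by rw [hxdef]; ring
  rw [hn]
  have hx1 : (1 : ℝ) ≤ x := by rw [hxdef]; linarith [Nat.cast_nonneg (α := ℝ) n]
  have hxm : 0 < x - 1 / 2 := by linarith
  have hxp : 0 < x + 1 / 2 := by linarith
  have l1 : 1 + 1 / x / 2 = (x + 1 / 2) / x := by field_simp
  have l2 : 1 - 1 / x / 2 = (x - 1 / 2) / x := by field_simp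
  rw [l1, l2, Real.log_div hxp.ne' hx.ne', Real.log_div hxm.ne' hx.ne']
  have g1 : 1 / x / ((x + 1 / 2) / x) = 1 / (x + 1 / 2) := by
    field_simp
  have g2 : 1 / x / ((x - 1 / 2) / x) = 1 / (x - 1 / 2) := by
    field_simp
  rw [g1, g2]
  simp only [div_pow, one_pow]
  ring

lemma SS_asym : ∃ C : ℝ, ∀ n : ℕ,
    |SS n - (C + TT ((n : ℝ) + 1 / 2))| ≤ 130 / ((n : ℝ) + 1 / 2) ^ 8 := by
  set a : ℕ → ℝ := fun n => SS n - TT ((n : ℝ) + 1 / 2) with ha
  set e : ℕ → ℝ := fun n => 130 / ((n : ℝ) + 1 / 2) ^ 8 with he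
  have hstep : ∀ n, |a (n + 1) - a n| ≤ e n - e (n + 1) := by
    intro n
    have h1 : a (n + 1) - a n = phi (1 / ((n : ℝ) + 1)) := by
      rw [← step_eq n]
      simp only [ha]
      push_cast
      ring_nf
    rw [h1]
    have hx : (0 : ℝ) < (n : ℝ) + 1 := by positivity
    have hx1 : (1 : ℝ) ≤ (n : ℝ) + 1 := by linarith [Nat.cast_nonneg (α := ℝ) n]
    have h2 := phi_bd (t := 1 / ((n : ℝ) + 1)) (by positivity)
      (by rw [div_le_one hx]; exact hx1)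
    refine h2.trans ?_
    simp only [he]
    push_cast
    set x : ℝ := (n : ℝ) + 1 with hxdef
    have hn : (n : ℝ) + 1 / 2 = x - 1 / 2 := by rw [hxdef]; ring
    rw [hn]
    have hA : 0 < x - 1 / 2 := by linarith
    have hB : 0 < x + 1 / 2 := by linarith
    set A : ℝ := x - 1 / 2
    set B : ℝ := x + 1 / 2
    have hAB : B = A + 1 := by simp only [A, B]; ring
    have hAx : A ≤ x := by simp only [A]; linarith
    have hABx : A * B ≤ x ^ 2 := by simp only [A, B]; nlinarith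
    have k1 : A ^ 8 * B ≤ x ^ 9 := by
      have h7 : A ^ 7 ≤ x ^ 7 := pow_le_pow_left₀ hA.le hAx 7
      have := mul_le_mul h7 hABx (by positivity) (by positivity)
      calc A ^ 8 * B = A ^ 7 * (A * B) := by ring
        _ ≤ x ^ 7 * x ^ 2 := this
        _ = x ^ 9 := by ring
    have k2 : (1 / x) ^ 9 ≤ 1 / (A ^ 8 * B) := by
      rw [div_pow, one_pow]
      exact one_div_le_one_div_of_le (by positivity) k1
    have k3 : 1 / (A ^ 8 * B) ≤ 1 / A ^ 8 - 1 / B ^ 8 := by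
      have e1 : 1 / (A ^ 8 * B) = 1 / A ^ 8 - 1 / (A ^ 7 * B) := by
        have hB' : B ≠ 0 := hB.ne'
        field_simp
        rw [hAB]; ring
      rw [e1]
      have e2 : 1 / B ^ 8 ≤ 1 / (A ^ 7 * B) := by
        apply one_div_le_one_div_of_le (by positivity)
        have : A ^ 7 ≤ B ^ 7 := pow_le_pow_left₀ hA.le (by rw [hAB]; linarith) 7
        calc A ^ 7 * B ≤ B ^ 7 * B := mul_le_mul_of_nonneg_right this hB.le
          _ = B ^ 8 := by ring
      linarith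
    have k4 : (1 / x) ^ 9 ≤ 1 / A ^ 8 - 1 / B ^ 8 := k2.trans k3
    calc 130 * (1 / x) ^ 9 ≤ 130 * (1 / A ^ 8 - 1 / B ^ 8) := by linarith
      _ = 130 / A ^ 8 - 130 / B ^ 8 := by ring
  have hanti : Antitone (fun n => a n + e n) := by
    apply antitone_nat_of_succ_le
    intro n
    have := (abs_le.mp (hstep n)).2
    linarith
  have hmono : Monotone (fun n => a n - e n) := by
    apply monotone_nat_of_le_succ
    intro n
    have := (abs_le.mp (hstep n)).1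
    linarith
  have hepos : ∀ n, 0 < e n := fun n => by simp only [he]; positivity
  have hcb : ∀ m n, a m - e m ≤ a n + e n := by
    intro m n
    have h1 := hmono (le_max_left m n)
    have h2 := hanti (le_max_right m n)
    have h3 := hepos (max m n)
    simp only at h1 h2
    linarith
  refine ⟨⨆ m, (a m - e m), fun n => ?_⟩
  have hbdd : BddAbove (Set.range fun m => a m - e m) :=
    ⟨a 0 + e 0, by rintro _ ⟨m, rfl⟩; exact hcb m 0⟩
  have h1 : a n - e n ≤ ⨆ m, (a m - e m) := le_ciSup hbdd n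
  have h2 : (⨆ m, (a m - e m)) ≤ a n + e n := ciSup_le fun m => hcb m n
  have h3 : SS n - ((⨆ m, (a m - e m)) + TT ((n : ℝ) + 1 / 2)) = a n - ⨆ m, (a m - e m) := by
    simp only [ha]; ring
  rw [h3, abs_le]
  constructor <;> linarith

end Pool.Agent.H87.TanSum
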