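import Mathlib

/-!
The four-by-four determinant of the rows `(1, u², uv, v²)`, where `u = f(z)`, `v = f(yz)` and
`f(z) = z - c/z + b/z³ + a/z⁵ + O(z⁻⁷)`.
-/

namespace Pool.Agent.H87.TanSum

/-- coefficient `c` in `f(z) = z - c/z + b/z³ + a/z⁵ + …` -/
noncomputable def cc : ℝ := 5 / 24
/-- coefficient `b` in `f(z) = z - c/z + b/z³ + a/z⁵ + …` -/
noncomputable def bb : ℝ := 13 / 384
/-- coefficient `a` in `f(z) = z - c/z + b/z³ + a/z⁵ + …` -/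
noncomputable def aa : ℝ := -16385 / 580608

/-- truncated expansion of `f(z)/z` in `w = 1/z²` -/
noncomputable def PP (w : ℝ) : ℝ := 1 - cc * w + bb * w ^ 2 + aa * w ^ 3

lemma PP_abs {w : ℝ} (h0 : 0 ≤ w) (h1 : w ≤ 1) : |PP w| ≤ 2 := by
  unfold PP cc bb aa
  have h2 : w ^ 2 ≤ 1 := by nlinarith
  have h3 : w ^ 3 ≤ 1 := by
    have := mul_le_mul h2 h1 h0 (by norm_num)
    nlinarith
  have h2' : 0 ≤ w ^ 2 := by positivity
  have h3' : 0 ≤ w ^ 3 := by positivity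
  rw [abs_le]
  constructor <;> nlinarith

/-- expansion of a product of two values of `f`, all three monomials at once -/
lemma prod_exp {K Y1 Y2 w e1 e2 : ℝ} (hK : 0 ≤ K) (hY1 : 0 ≤ Y1) (hY1' : Y1 ≤ 1)
    (hY2 : 0 ≤ Y2) (hY2' : Y2 ≤ 1) (hw : 0 < w) (hw1 : w ≤ 1)
    (h1 : |e1| ≤ K * w ^ 4) (h2 : |e2| ≤ K * w ^ 4) :
    |(PP (Y1 * w) + e1) * (PP (Y2 * w) + e2) / w -
      (1 / w - cc * (Y1 + Y2) + (bb * Y1 ^ 2 + bb * Y2 ^ 2 + cc ^ 2 * Y1 * Y2) * w +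
        (aa * Y1 ^ 3 + aa * Y2 ^ 3 - bb * cc * Y1 ^ 2 * Y2 - bb * cc * Y1 * Y2 ^ 2) * w ^ 2)|
      ≤ (1 + 4 * K + K ^ 2) * w ^ 3 := by
  have key : (PP (Y1 * w) + e1) * (PP (Y2 * w) + e2) / w -
      (1 / w - cc * (Y1 + Y2) + (bb * Y1 ^ 2 + bb * Y2 ^ 2 + cc ^ 2 * Y1 * Y2) * w +
        (aa * Y1 ^ 3 + aa * Y2 ^ 3 - bb * cc * Y1 ^ 2 * Y2 - bb * cc * Y1 * Y2 ^ 2) * w ^ 2) =
      w ^ 3 * ((bb ^ 2 * Y1 ^ 2 * Y2 ^ 2 - aa * cc * (Y1 ^ 3 * Y2 + Y1 * Y2 ^ 3)) +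
        aa * bb * (Y1 ^ 3 * Y2 ^ 2 + Y1 ^ 2 * Y2 ^ 3) * w + aa ^ 2 * Y1 ^ 3 * Y2 ^ 3 * w ^ 2) +
      (PP (Y1 * w) * e2 + PP (Y2 * w) * e1 + e1 * e2) / w := by
    unfold PP
    field_simp
    ring
  rw [key]
  have hP1 : |PP (Y1 * w)| ≤ 2 := PP_abs (by positivity) (by nlinarith)
  have hP2 : |PP (Y2 * w)| ≤ 2 := PP_abs (by positivity) (by nlinarith)
  have a1 : |PP (Y1 * w) * e2| ≤ 2 * (K * w ^ 4) := by
    rw [abs_mul]; exact mul_le_mul hP1 h2 (abs_nonneg _) (by norm_num)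
  have a2 : |PP (Y2 * w) * e1| ≤ 2 * (K * w ^ 4) := by
    rw [abs_mul]; exact mul_le_mul hP2 h1 (abs_nonneg _) (by norm_num)
  have a3 : |e1 * e2| ≤ K ^ 2 * w ^ 4 := by
    rw [abs_mul]
    have := mul_le_mul h1 h2 (abs_nonneg _) (by positivity)
    refine this.trans ?_
    have hw4 : w ^ 4 ≤ 1 := pow_le_one₀ hw.le hw1
    have : K * w ^ 4 * (K * w ^ 4) = K ^ 2 * w ^ 4 * w ^ 4 := by ring
    rw [this]
    nlinarith [mul_nonneg (sq_nonneg K) (pow_nonneg hw.le 4)]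
  have b1 : |(PP (Y1 * w) * e2 + PP (Y2 * w) * e1 + e1 * e2) / w| ≤ (4 * K + K ^ 2) * w ^ 3 := by
    rw [abs_div, abs_of_pos hw, div_le_iff₀ hw]
    have := abs_add_three (PP (Y1 * w) * e2) (PP (Y2 * w) * e1) (e1 * e2)
    nlinarith
  have hpow : ∀ (i j : ℕ), Y1 ^ i * Y2 ^ j ≤ 1 := fun i j =>
    mul_le_one₀ (pow_le_one₀ hY1 hY1') (by positivity) (pow_le_one₀ hY2 hY2')
  have hpow0 : ∀ (i j : ℕ), 0 ≤ Y1 ^ i * Y2 ^ j := fun i j => by positivity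
  have b2 : |(bb ^ 2 * Y1 ^ 2 * Y2 ^ 2 - aa * cc * (Y1 ^ 3 * Y2 + Y1 * Y2 ^ 3)) +
        aa * bb * (Y1 ^ 3 * Y2 ^ 2 + Y1 ^ 2 * Y2 ^ 3) * w + aa ^ 2 * Y1 ^ 3 * Y2 ^ 3 * w ^ 2|
        ≤ 1 := by
    have e22 := hpow 2 2
    have e22' := hpow0 2 2
    have e31 := hpow 3 1
    have e31' := hpow0 3 1
    have e13 := hpow 1 3
    have e13' := hpow0 1 3
    have e32 := hpow 3 2
    have e32' := hpow0 3 2
    have e23 := hpow 2 3
    have e23' := hpow0 2 3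
    have e33 := hpow 3 3
    have e33' := hpow0 3 3
    have f32 : Y1 ^ 3 * Y2 ^ 2 * w ≤ 1 := mul_le_one₀ e32 hw.le hw1
    have f32' : 0 ≤ Y1 ^ 3 * Y2 ^ 2 * w := by positivity
    have f23 : Y1 ^ 2 * Y2 ^ 3 * w ≤ 1 := mul_le_one₀ e23 hw.le hw1
    have f23' : 0 ≤ Y1 ^ 2 * Y2 ^ 3 * w := by positivity
    have f33 : Y1 ^ 3 * Y2 ^ 3 * w ^ 2 ≤ 1 :=
      mul_le_one₀ e33 (by positivity) (pow_le_one₀ hw.le hw1)
    have f33' : 0 ≤ Y1 ^ 3 * Y2 ^ 3 * w ^ 2 := by positivity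
    simp only [pow_one] at e31 e31' e13 e13'
    unfold aa bb cc
    rw [abs_le]
    constructor <;> nlinarith
  have b3 := abs_add_le (w ^ 3 * ((bb ^ 2 * Y1 ^ 2 * Y2 ^ 2 -
      aa * cc * (Y1 ^ 3 * Y2 + Y1 * Y2 ^ 3)) +
        aa * bb * (Y1 ^ 3 * Y2 ^ 2 + Y1 ^ 2 * Y2 ^ 3) * w + aa ^ 2 * Y1 ^ 3 * Y2 ^ 3 * w ^ 2))
      ((PP (Y1 * w) * e2 + PP (Y2 * w) * e1 + e1 * e2) / w)
  rw [abs_mul, abs_of_pos (by positivity : 0 < w ^ 3)] at b3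
  have b4 := mul_le_mul_of_nonneg_left b2 (by positivity : 0 ≤ w ^ 3)
  nlinarith

/-- the determinant with rows `(1, p, r, t)` -/
def D4 (p1 p2 p3 p4 r1 r2 r3 r4 t1 t2 t3 t4 : ℝ) : ℝ :=
  (p4 - p3) * (r1 * t2 - r2 * t1) - (p4 - p2) * (r1 * t3 - r3 * t1) +
  (p4 - p1) * (r2 * t3 - r3 * t2) + (p3 - p2) * (r1 * t4 - r4 * t1) -
  (p3 - p1) * (r2 * t4 - r4 * t2) + (p2 - p1) * (r3 * t4 - r4 * t3)

lemma D4_col (al be : ℝ) (p1 p2 p3 p4 r1 r2 r3 r4 t1 t2 t3 t4 : ℝ) :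
    D4 p1 p2 p3 p4 r1 r2 r3 r4 t1 t2 t3 t4 =
    D4 p1 p2 p3 p4 (r1 - p1 - al) (r2 - p2 - al) (r3 - p3 - al) (r4 - p4 - al)
      (t1 - p1 - be) (t2 - p2 - be) (t3 - p3 - be) (t4 - p4 - be) := by
  unfold D4; ring

/-- coefficients -/
noncomputable def be2 (Y : ℝ) : ℝ := bb + bb * Y ^ 2 + cc ^ 2 * Y - cc ^ 2 - 2 * bb
noncomputable def al2 (Y : ℝ) : ℝ :=
  aa + aa * Y ^ 3 - bb * cc * Y - bb * cc * Y ^ 2 - 2 * aa + 2 * bb * cc
noncomputable def be3 (Y : ℝ) : ℝ := (cc ^ 2 + 2 * bb) * (Y ^ 2 - 1)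
noncomputable def al3 (Y : ℝ) : ℝ := (2 * aa - 2 * bb * cc) * (Y ^ 3 - 1)

/-- the (positive) leading coefficient of the determinant -/
noncomputable def del (Y : ℝ) : ℝ := al2 Y * be3 Y - be2 Y * al3 Y

lemma del_bd {Y : ℝ} (h0 : 0 ≤ Y) (h1 : Y ≤ 1 / 20) : 1 / 2000 ≤ del Y ∧ del Y ≤ 1 / 1000 := by
  have h2 : Y ^ 2 ≤ 1 / 20 * Y := by nlinarith
  have h3 : Y ^ 3 ≤ 1 / 20 * Y := by
    have : Y ^ 3 = Y ^ 2 * Y := by ring
    nlinarith [sq_nonneg Y]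
  have h4 : Y ^ 4 ≤ 1 / 20 * Y := by
    have : Y ^ 4 = Y ^ 3 * Y := by ring
    have : 0 ≤ Y ^ 3 := by positivity
    nlinarith
  have h5 : Y ^ 5 ≤ 1 / 20 * Y := by
    have : Y ^ 5 = Y ^ 4 * Y := by ring
    have : 0 ≤ Y ^ 4 := by positivity
    nlinarith
  have g2 : 0 ≤ Y ^ 2 := by positivity
  have g3 : 0 ≤ Y ^ 3 := by positivity
  have g4 : 0 ≤ Y ^ 4 := by positivity
  have g5 : 0 ≤ Y ^ 5 := by positivity
  unfold del al2 be3 be2 al3 aa bb cc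
  constructor <;> nlinarith

lemma coef_bd {Y : ℝ} (h0 : 0 ≤ Y) (h1 : Y ≤ 1) :
    |be2 Y| ≤ 1 ∧ |al2 Y| ≤ 1 ∧ |be3 Y| ≤ 1 ∧ |al3 Y| ≤ 1 := by
  have h2 : Y ^ 2 ≤ 1 := pow_le_one₀ h0 h1
  have h3 : Y ^ 3 ≤ 1 := pow_le_one₀ h0 h1
  have g2 : 0 ≤ Y ^ 2 := by positivity
  have g3 : 0 ≤ Y ^ 3 := by positivity
  unfold al2 be3 be2 al3 aa bb cc
  refine ⟨?_, ?_, ?_, ?_⟩ <;> rw [abs_le] <;> constructor <;> nlinarith

/-- a two-by-two minor of the two small columns -/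
lemma minor {K w v b2 a2 b3 a3 e f e' f' : ℝ} (hK : 0 ≤ K) (hv : 0 < v) (hvw : v ≤ w)
    (hw1 : w ≤ 1) (hb2 : |b2| ≤ 1) (ha2 : |a2| ≤ 1) (hb3 : |b3| ≤ 1) (ha3 : |a3| ≤ 1)
    (he : |e| ≤ K * w ^ 3) (hf : |f| ≤ K * w ^ 3) (he' : |e'| ≤ K * v ^ 3)
    (hf' : |f'| ≤ K * v ^ 3) :
    |((b2 * w + a2 * w ^ 2 + e) * (b3 * v + a3 * v ^ 2 + f') -
      (b2 * v + a2 * v ^ 2 + e') * (b3 * w + a3 * w ^ 2 + f)) -
      (a2 * b3 - b2 * a3) * (w * v * (w - v))| ≤ (8 * K + 2 * K ^ 2) * (w ^ 3 * v) := by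
  have hw : 0 < w := lt_of_lt_of_le hv hvw
  have hv1 : v ≤ 1 := hvw.trans hw1
  have key : ((b2 * w + a2 * w ^ 2 + e) * (b3 * v + a3 * v ^ 2 + f') -
      (b2 * v + a2 * v ^ 2 + e') * (b3 * w + a3 * w ^ 2 + f)) -
      (a2 * b3 - b2 * a3) * (w * v * (w - v)) =
      (b2 * w + a2 * w ^ 2) * f' + (b3 * v + a3 * v ^ 2) * e + e * f' -
      (b2 * v + a2 * v ^ 2) * f - (b3 * w + a3 * w ^ 2) * e' - e' * f := by ring
  rw [key]
  have lin : ∀ (s t x : ℝ), |s| ≤ 1 → |t| ≤ 1 → 0 < x → x ≤ 1 →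
      |s * x + t * x ^ 2| ≤ 2 * x := by
    intro s t x hs ht hx hx1
    have h1 : |s * x| ≤ x := by
      rw [abs_mul, abs_of_pos hx]; nlinarith [abs_nonneg s]
    have h2 : |t * x ^ 2| ≤ x := by
      rw [abs_mul, abs_of_pos (by positivity : 0 < x ^ 2)]
      have : x ^ 2 ≤ x := by nlinarith
      have h3 := mul_le_mul_of_nonneg_right ht (by positivity : 0 ≤ x ^ 2)
      linarith
    have := abs_add_le (s * x) (t * x ^ 2)
    linarith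
  have hv3w : w * v ^ 3 ≤ w ^ 3 * v := by
    have : v ^ 2 ≤ w ^ 2 := by nlinarith
    have := mul_le_mul_of_nonneg_left this (by positivity : 0 ≤ w * v)
    nlinarith
  have hwv : v ^ 3 * w ^ 3 ≤ w ^ 3 * v := by
    have : v ^ 3 ≤ v := by
      have h2 : v ^ 2 ≤ 1 := pow_le_one₀ hv.le hv1
      have : v ^ 3 = v * v ^ 2 := by ring
      nlinarith
    have := mul_le_mul_of_nonneg_left this (by positivity : 0 ≤ w ^ 3)
    linarith
  have t1 : |(b2 * w + a2 * w ^ 2) * f'| ≤ 2 * K * (w ^ 3 * v) := by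
    rw [abs_mul]
    have := mul_le_mul (lin b2 a2 w hb2 ha2 hw hw1) hf' (abs_nonneg _) (by positivity)
    have h := mul_le_mul_of_nonneg_left hv3w (by positivity : 0 ≤ 2 * K)
    nlinarith
  have t2 : |(b3 * v + a3 * v ^ 2) * e| ≤ 2 * K * (w ^ 3 * v) := by
    rw [abs_mul]
    have := mul_le_mul (lin b3 a3 v hb3 ha3 hv hv1) he (abs_nonneg _) (by positivity)
    nlinarith
  have t3 : |e * f'| ≤ K ^ 2 * (w ^ 3 * v) := by
    rw [abs_mul]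
    have := mul_le_mul he hf' (abs_nonneg _) (by positivity)
    have h := mul_le_mul_of_nonneg_left hwv (by positivity : 0 ≤ K ^ 2)
    nlinarith
  have t4 : |(b2 * v + a2 * v ^ 2) * f| ≤ 2 * K * (w ^ 3 * v) := by
    rw [abs_mul]
    have := mul_le_mul (lin b2 a2 v hb2 ha2 hv hv1) hf (abs_nonneg _) (by positivity)
    nlinarith
  have t5 : |(b3 * w + a3 * w ^ 2) * e'| ≤ 2 * K * (w ^ 3 * v) := by
    rw [abs_mul]
    have := mul_le_mul (lin b3 a3 w hb3 ha3 hw hw1) he' (abs_nonneg _) (by positivity)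
    have h := mul_le_mul_of_nonneg_left hv3w (by positivity : 0 ≤ 2 * K)
    nlinarith
  have t6 : |e' * f| ≤ K ^ 2 * (w ^ 3 * v) := by
    rw [abs_mul]
    have := mul_le_mul he' hf (abs_nonneg _) (by positivity)
    have h := mul_le_mul_of_nonneg_left hwv (by positivity : 0 ≤ K ^ 2)
    nlinarith
  rw [abs_le] at t1 t2 t3 t4 t5 t6 ⊢
  constructor <;> linarith [t1.1, t2.1, t3.1, t4.1, t5.1, t6.1, t1.2, t2.2, t3.2, t4.2, t5.2, t6.2]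

/-- expansion data at one point -/
structure Row (K Y w p r t : ℝ) : Prop where
  hp : |p - (1 / w - 2 * cc)| ≤ K * w
  hr : |r - p - cc * (1 - Y) - (be2 Y * w + al2 Y * w ^ 2)| ≤ K * w ^ 3
  ht : |t - p - 2 * cc * (1 - Y) - (be3 Y * w + al3 Y * w ^ 2)| ≤ K * w ^ 3

lemma row_minor {K Y w p r t w' p' r' t' : ℝ} (hK : 0 ≤ K) (hY : 0 ≤ Y) (hY1 : Y ≤ 1 / 20)
    (h : Row K Y w p r t) (h' : Row K Y w' p' r' t') (hw' : 0 < w') (hww : w' ≤ w)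
    (hw1 : w ≤ 1) (hsm : (8 * K + 2 * K ^ 2) * w ≤ 1 / 40000) :
    |(r - p - cc * (1 - Y)) * (t' - p' - 2 * cc * (1 - Y)) -
      (r' - p' - cc * (1 - Y)) * (t - p - 2 * cc * (1 - Y)) - del Y * (w * w' * (w - w'))|
      ≤ 1 / 20 * del Y * (w ^ 2 * w') := by
  obtain ⟨c1, c2, c3, c4⟩ := coef_bd hY (by linarith : Y ≤ 1)
  have := minor hK hw' hww hw1 c1 c2 c3 c4 h.hr h.ht h'.hr h'.ht
  have hw : 0 < w := lt_of_lt_of_le hw' hww
  obtain ⟨d1, d2⟩ := del_bd hY hY1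
  have e1 : (8 * K + 2 * K ^ 2) * (w ^ 3 * w') ≤ 1 / 20 * del Y * (w ^ 2 * w') := by
    have h1 : (8 * K + 2 * K ^ 2) * (w ^ 3 * w') = ((8 * K + 2 * K ^ 2) * w) * (w ^ 2 * w') := by
      ring
    rw [h1]
    refine mul_le_mul_of_nonneg_right ?_ (by positivity)
    linarith
  refine le_trans (le_of_eq ?_) (this.trans e1)
  congr 1
  unfold del
  ring

lemma D4_bounds {K : ℝ} (hK : 0 ≤ K) :
    ∃ w0 : ℝ, 0 < w0 ∧ ∀ (Y w1 w2 w3 w4 p1 p2 p3 p4 r1 r2 r3 r4 t1 t2 t3 t4 : ℝ),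
      0 ≤ Y → Y ≤ 1 / 20 → 0 < w4 → w4 ≤ w3 / 20 → w3 ≤ w2 / 20 → w2 ≤ w1 / 20 → w1 ≤ w0 →
      Row K Y w1 p1 r1 t1 → Row K Y w2 p2 r2 t2 → Row K Y w3 p3 r3 t3 → Row K Y w4 p4 r4 t4 →
      0 < D4 p1 p2 p3 p4 r1 r2 r3 r4 t1 t2 t3 t4 ∧
      D4 p1 p2 p3 p4 r1 r2 r3 r4 t1 t2 t3 t4 ≤ w1 ^ 2 * w2 / w4 := by
  refine ⟨1 / (1000000 * (1 + K + K ^ 2)), by positivity, ?_⟩
  intro Y w1 w2 w3 w4 p1 p2 p3 p4 r1 r2 r3 r4 t1 t2 t3 t4 hY hY1 h4 h43 h32 h21 hw0 R1 R2 R3 R4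
  have h3 : 0 < w3 := by linarith
  have h2 : 0 < w2 := by linarith
  have h1 : 0 < w1 := by linarith
  have hKw : (1 + K + K ^ 2) * w1 ≤ 1 / 1000000 := by
    rw [le_div_iff₀ (by positivity)] at hw0
    linarith
  have hw1s : w1 ≤ 1 / 1000000 := by nlinarith [sq_nonneg K]
  have hKw1 : K * w1 ≤ 1 / 1000000 := by nlinarith [sq_nonneg K]
  have hK2w1 : K ^ 2 * w1 ≤ 1 / 1000000 := by nlinarith [sq_nonneg K]
  have hsm1 : (8 * K + 2 * K ^ 2) * w1 ≤ 1 / 40000 := by nlinarith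
  have hCK : 0 ≤ 8 * K + 2 * K ^ 2 := by positivity
  have hsm2 : (8 * K + 2 * K ^ 2) * w2 ≤ 1 / 40000 :=
    (mul_le_mul_of_nonneg_left (by linarith : w2 ≤ w1) hCK).trans hsm1
  have hsm3 : (8 * K + 2 * K ^ 2) * w3 ≤ 1 / 40000 :=
    (mul_le_mul_of_nonneg_left (by linarith : w3 ≤ w1) hCK).trans hsm1
  rw [D4_col (cc * (1 - Y)) (2 * cc * (1 - Y))]
  obtain ⟨d1, d2⟩ := del_bd hY hY1
  have m12 := row_minor hK hY hY1 R1 R2 h2 (by linarith) (by linarith) hsm1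
  have m13 := row_minor hK hY hY1 R1 R3 h3 (by linarith) (by linarith) hsm1
  have m14 := row_minor hK hY hY1 R1 R4 h4 (by linarith) (by linarith) hsm1
  have m23 := row_minor hK hY hY1 R2 R3 h3 (by linarith) (by linarith) hsm2
  have m24 := row_minor hK hY hY1 R2 R4 h4 (by linarith) (by linarith) hsm2
  have m34 := row_minor hK hY hY1 R3 R4 h4 (by linarith) (by linarith) hsm3
  unfold D4
  generalize hM12 : (r1 - p1 - cc * (1 - Y)) * (t2 - p2 - 2 * cc * (1 - Y)) -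
      (r2 - p2 - cc * (1 - Y)) * (t1 - p1 - 2 * cc * (1 - Y)) = M12 at *
  generalize hM13 : (r1 - p1 - cc * (1 - Y)) * (t3 - p3 - 2 * cc * (1 - Y)) -
      (r3 - p3 - cc * (1 - Y)) * (t1 - p1 - 2 * cc * (1 - Y)) = M13 at *
  generalize hM14 : (r1 - p1 - cc * (1 - Y)) * (t4 - p4 - 2 * cc * (1 - Y)) -
      (r4 - p4 - cc * (1 - Y)) * (t1 - p1 - 2 * cc * (1 - Y)) = M14 at *
  generalize hM23 : (r2 - p2 - cc * (1 - Y)) * (t3 - p3 - 2 * cc * (1 - Y)) -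
      (r3 - p3 - cc * (1 - Y)) * (t2 - p2 - 2 * cc * (1 - Y)) = M23 at *
  generalize hM24 : (r2 - p2 - cc * (1 - Y)) * (t4 - p4 - 2 * cc * (1 - Y)) -
      (r4 - p4 - cc * (1 - Y)) * (t2 - p2 - 2 * cc * (1 - Y)) = M24 at *
  generalize hM34 : (r3 - p3 - cc * (1 - Y)) * (t4 - p4 - 2 * cc * (1 - Y)) -
      (r4 - p4 - cc * (1 - Y)) * (t3 - p3 - 2 * cc * (1 - Y)) = M34 at *
  clear hM12 hM13 hM14 hM23 hM24 hM34
  generalize del Y = D at *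
  have hD : 0 < D := by linarith
  -- general bound for a minor
  have mb : ∀ (w v M : ℝ), 0 < v → v ≤ w → |M - D * (w * v * (w - v))| ≤ 1 / 20 * D * (w ^ 2 * v) →
      |M| ≤ 11 / 10 * D * (w ^ 2 * v) := by
    intro w v M hv hvw h
    have hw : 0 < w := by linarith
    have e1 : w * v * (w - v) ≤ w ^ 2 * v := by nlinarith [mul_pos hw hv]
    have e0 : 0 ≤ w * v * (w - v) := by
      have : 0 ≤ w - v := by linarith
      positivity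
    have e2 : D * (w * v * (w - v)) ≤ D * (w ^ 2 * v) := mul_le_mul_of_nonneg_left e1 hD.le
    have e3 : 0 ≤ D * (w * v * (w - v)) := by positivity
    have e4 : 0 ≤ D * (w ^ 2 * v) := by positivity
    rw [abs_le] at h ⊢
    constructor <;> linarith [h.1, h.2]
  have n13 := mb w1 w3 M13 h3 (by linarith) m13
  have n14 := mb w1 w4 M14 h4 (by linarith) m14
  have n23 := mb w2 w3 M23 h3 (by linarith) m23
  have n24 := mb w2 w4 M24 h4 (by linarith) m24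
  have n34 := mb w3 w4 M34 h4 (by linarith) m34
  -- differences of `p`
  have pd : ∀ (w v p q : ℝ), 0 < v → v ≤ w / 20 → w ≤ w1 → |p - (1 / w - 2 * cc)| ≤ K * w →
      |q - (1 / v - 2 * cc)| ≤ K * v → 9 / 10 * (1 / v) ≤ q - p ∧ q - p ≤ 11 / 10 * (1 / v) := by
    intro w v p q hv hvw hw hp hq
    have hw' : 0 < w := by linarith
    have e1 : 1 / w ≤ 1 / 20 * (1 / v) := by
      rw [div_le_iff₀ hw']
      have : 1 / 20 * (1 / v) * w = w / 20 / v := by ring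
      rw [this, le_div_iff₀ hv]
      linarith
    have e0 : 0 < 1 / w := by positivity
    have e2 : K * w ≤ 1 / 1000000 := (mul_le_mul_of_nonneg_left hw hK).trans hKw1
    have e3 : K * v ≤ 1 / 1000000 :=
      (mul_le_mul_of_nonneg_left (by linarith : v ≤ w1) hK).trans hKw1
    have e4 : (1 : ℝ) ≤ 1 / v := by
      rw [le_div_iff₀ hv]; linarith
    rw [abs_le] at hp hq
    constructor <;> linarith [hp.1, hp.2, hq.1, hq.2]
  have q34 := pd w3 w4 p3 p4 h4 (by linarith) (by linarith) R3.hp R4.hp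
  have q24 := pd w2 w4 p2 p4 h4 (by linarith) (by linarith) R2.hp R4.hp
  have q14 := pd w1 w4 p1 p4 h4 (by linarith) (by linarith) R1.hp R4.hp
  have q23 := pd w2 w3 p2 p3 h3 (by linarith) (by linarith) R2.hp R3.hp
  have q13 := pd w1 w3 p1 p3 h3 (by linarith) (by linarith) R1.hp R3.hp
  have q12 := pd w1 w2 p1 p2 h2 (by linarith) (by linarith) R1.hp R2.hp
  set T : ℝ := w1 ^ 2 * w2 / w4 with hT
  have hTpos : 0 < T := by positivity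
  -- small products
  have sp : ∀ (x : ℝ) (M : ℝ) (v w v' : ℝ), 0 < v → 0 < w → 0 < v' →
      9 / 10 * (1 / v) ≤ x → x ≤ 11 / 10 * (1 / v) →
      |M| ≤ 11 / 10 * D * (w ^ 2 * v') → 1 / v * (w ^ 2 * v') ≤ T / 20 →
      |x * M| ≤ 121 / 2000 * D * T := by
    intro x M v w v' hv hw hv' hx1 hx2 hM hT
    have hv0 : 0 < 1 / v := by positivity
    have hx0 : 0 < x := by linarith
    rw [abs_mul, abs_of_pos hx0]
    have := mul_le_mul hx2 hM (abs_nonneg _) (by positivity)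
    refine this.trans ?_
    have e : 11 / 10 * (1 / v) * (11 / 10 * D * (w ^ 2 * v')) =
        121 / 100 * D * (1 / v * (w ^ 2 * v')) := by ring
    rw [e]
    have := mul_le_mul_of_nonneg_left hT (by positivity : 0 ≤ 121 / 100 * D)
    linarith
  have T' : ∀ (v w v' : ℝ), 0 < v → 20 * (w ^ 2 * v') * w4 ≤ w1 ^ 2 * w2 * v →
      1 / v * (w ^ 2 * v') ≤ T / 20 := by
    intro v w v' hv h
    rw [hT]
    rw [show 1 / v * (w ^ 2 * v') = (w ^ 2 * v') / v by ring,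
      show w1 ^ 2 * w2 / w4 / 20 = (w1 ^ 2 * w2) / (20 * w4) by field_simp]
    rw [div_le_div_iff₀ hv (by positivity)]
    linarith
  have w1sq : 0 < w1 ^ 2 := by positivity
  have k32 : 20 * w3 ≤ w2 := by linarith
  have k43 : 20 * w4 ≤ w3 := by linarith
  have k21 : 20 * w2 ≤ w1 := by linarith
  have s13 : |(p4 - p2) * M13| ≤ 121 / 2000 * D * T :=
    sp _ _ w4 w1 w3 h4 h1 h3 q24.1 q24.2 n13 (T' _ _ _ h4 (by
      have := mul_le_mul_of_nonneg_left k32 (by positivity : 0 ≤ w1 ^ 2 * w4)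
      linarith))
  have s23 : |(p4 - p1) * M23| ≤ 121 / 2000 * D * T :=
    sp _ _ w4 w2 w3 h4 h2 h3 q14.1 q14.2 n23 (T' _ _ _ h4 (by
      have e1 : w2 ^ 2 ≤ w1 ^ 2 := by nlinarith
      have := mul_le_mul e1 k32 (by positivity) (by positivity)
      have := mul_le_mul_of_nonneg_right this h4.le
      linarith))
  have s14 : |(p3 - p2) * M14| ≤ 121 / 2000 * D * T :=
    sp _ _ w3 w1 w4 h3 h1 h4 q23.1 q23.2 n14 (T' _ _ _ h3 (by
      have e1 : 20 * w4 * w4 ≤ w3 * w2 := by nlinarith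
      have := mul_le_mul_of_nonneg_left e1 w1sq.le
      linarith))
  have s24 : |(p3 - p1) * M24| ≤ 121 / 2000 * D * T :=
    sp _ _ w3 w2 w4 h3 h2 h4 q13.1 q13.2 n24 (T' _ _ _ h3 (by
      have e1 : 20 * w4 * w4 ≤ w3 * w2 := by nlinarith
      have e2 : w2 ^ 2 ≤ w1 ^ 2 := by nlinarith
      have := mul_le_mul e2 e1 (by positivity) (by positivity)
      linarith))
  have s34 : |(p2 - p1) * M34| ≤ 121 / 2000 * D * T :=
    sp _ _ w2 w3 w4 h2 h3 h4 q12.1 q12.2 n34 (T' _ _ _ h2 (by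
      have e1 : 20 * w4 * w4 ≤ w2 * w2 := by nlinarith
      have e2 : w3 ^ 2 ≤ w1 ^ 2 := by nlinarith
      have := mul_le_mul e2 e1 (by positivity) (by positivity)
      linarith))
  -- main term
  have main1 : 9 / 10 * D * (w1 ^ 2 * w2) ≤ M12 ∧ M12 ≤ 11 / 10 * D * (w1 ^ 2 * w2) := by
    have e1 : w1 * w2 * (w1 - w2) ≤ w1 ^ 2 * w2 := by nlinarith [mul_pos h1 h2]
    have e0 : 19 / 20 * (w1 ^ 2 * w2) ≤ w1 * w2 * (w1 - w2) := by
      have : 0 ≤ w1 * w2 * (w1 - 20 * w2) := by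
        have : 0 ≤ w1 - 20 * w2 := by linarith
        positivity
      linarith
    have e2 : D * (w1 * w2 * (w1 - w2)) ≤ D * (w1 ^ 2 * w2) := mul_le_mul_of_nonneg_left e1 hD.le
    have e3 : D * (19 / 20 * (w1 ^ 2 * w2)) ≤ D * (w1 * w2 * (w1 - w2)) :=
      mul_le_mul_of_nonneg_left e0 hD.le
    have e4 : 0 ≤ D * (w1 ^ 2 * w2) := by positivity
    rw [abs_le] at m12
    constructor <;> linarith [m12.1, m12.2]
  have main2 : 81 / 100 * D * T ≤ (p4 - p3) * M12 ∧ (p4 - p3) * M12 ≤ 121 / 100 * D * T := by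
    have e4 : 0 < 1 / w4 := by positivity
    have hw : 0 < w1 ^ 2 * w2 := by positivity
    constructor
    · have := mul_le_mul q34.1 main1.1 (by positivity) (by linarith [q34.1])
      refine le_trans (le_of_eq ?_) this
      rw [hT]; ring
    · have := mul_le_mul q34.2 main1.2 (le_trans (by positivity) main1.1) (by positivity)
      refine le_trans this (le_of_eq ?_)
      rw [hT]; ring
  have hDT : 0 < D * T := by positivity
  rw [abs_le] at s13 s14 s23 s24 s34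
  constructor
  · linarith [s13.1, s13.2, s14.1, s14.2, s23.1, s23.2, s24.1, s24.2, s34.1, s34.2, main2.1]
  · have : D * T ≤ 1 / 1000 * T := mul_le_mul_of_nonneg_right d2 hTpos.le
    linarith [s13.1, s13.2, s14.1, s14.2, s23.1, s23.2, s24.1, s24.2, s34.1, s34.2, main2.2]

end Pool.Agent.H87.TanSum
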