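import Mathlib
import Pool.Agent.H87.TanSum.Asym
import Pool.Agent.H87.TanSum.Det

/-!
Inversion of the expansion: `log z = TT N + O(N⁻⁸)` gives `N = z (1 - c/z² + b/z⁴ + a/z⁶ + O(z⁻⁸))`.
-/

namespace Pool.Agent.H87.TanSum

/-- `x` equals a cubic polynomial in `s` up to `K s⁴` -/
def Tr (s x a0 a1 a2 a3 K : ℝ) : Prop := |x - (a0 + a1 * s + a2 * s ^ 2 + a3 * s ^ 3)| ≤ K * s ^ 4

lemma poly_abs {s a0 a1 a2 a3 : ℝ} (h0 : 0 ≤ s) (h1 : s ≤ 1) :
    |a0 + a1 * s + a2 * s ^ 2 + a3 * s ^ 3| ≤ |a0| + |a1| + |a2| + |a3| := by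
  have e : ∀ (a : ℝ) (k : ℕ), |a * s ^ k| ≤ |a| := by
    intro a k
    rw [abs_mul, abs_of_nonneg (pow_nonneg h0 k)]
    exact mul_le_of_le_one_right (abs_nonneg _) (pow_le_one₀ h0 h1)
  have e1 := e a1 1
  have e2 := e a2 2
  have e3 := e a3 3
  rw [pow_one] at e1
  have t1 := abs_add_le (a0 + a1 * s + a2 * s ^ 2) (a3 * s ^ 3)
  have t2 := abs_add_three a0 (a1 * s) (a2 * s ^ 2)
  linarith

lemma Tr.add {s x a0 a1 a2 a3 K y b0 b1 b2 b3 L : ℝ} (hx : Tr s x a0 a1 a2 a3 K)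
    (hy : Tr s y b0 b1 b2 b3 L) : Tr s (x + y) (a0 + b0) (a1 + b1) (a2 + b2) (a3 + b3) (K + L) := by
  unfold Tr at *
  have := abs_add_le (x - (a0 + a1 * s + a2 * s ^ 2 + a3 * s ^ 3))
    (y - (b0 + b1 * s + b2 * s ^ 2 + b3 * s ^ 3))
  refine le_trans (le_of_eq ?_) (this.trans (by linarith))
  congr 1; ring

lemma Tr.smul {s x a0 a1 a2 a3 K : ℝ} (c : ℝ) (hx : Tr s x a0 a1 a2 a3 K) :
    Tr s (c * x) (c * a0) (c * a1) (c * a2) (c * a3) (|c| * K) := by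
  unfold Tr at *
  have : c * x - (c * a0 + c * a1 * s + c * a2 * s ^ 2 + c * a3 * s ^ 3) =
    c * (x - (a0 + a1 * s + a2 * s ^ 2 + a3 * s ^ 3)) := by ring
  rw [this, abs_mul, mul_assoc]
  exact mul_le_mul_of_nonneg_left hx (abs_nonneg _)

lemma Tr.shift {s x a0 a1 a2 a3 K : ℝ} (h0 : 0 ≤ s) (h1 : s ≤ 1) (hK : 0 ≤ K)
    (hx : Tr s x a0 a1 a2 a3 K) :
    Tr s (s * x) 0 a0 a1 a2 (|a3| + K) := by
  unfold Tr at *
  have : s * x - (0 + a0 * s + a1 * s ^ 2 + a2 * s ^ 3) =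
    s * (x - (a0 + a1 * s + a2 * s ^ 2 + a3 * s ^ 3)) + a3 * s ^ 4 := by ring
  rw [this]
  refine (abs_add_le _ _).trans ?_
  rw [abs_mul, abs_mul, abs_of_nonneg h0, abs_of_nonneg (pow_nonneg h0 4)]
  have h2 := mul_le_mul_of_nonneg_left hx h0
  have h3 : s * (K * s ^ 4) ≤ 1 * (K * s ^ 4) := mul_le_mul_of_nonneg_right h1 (by positivity)
  linarith

lemma Tr.mul {s x a0 a1 a2 a3 K y b0 b1 b2 b3 L : ℝ} (h0 : 0 ≤ s) (h1 : s ≤ 1)
    (hK : 0 ≤ K) (hL : 0 ≤ L) (hx : Tr s x a0 a1 a2 a3 K)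
    (hy : Tr s y b0 b1 b2 b3 L) :
    Tr s (x * y) (a0 * b0) (a0 * b1 + a1 * b0) (a0 * b2 + a1 * b1 + a2 * b0)
      (a0 * b3 + a1 * b2 + a2 * b1 + a3 * b0)
      ((|a0| + |a1| + |a2| + |a3| + K) * (|b0| + |b1| + |b2| + |b3| + L)) := by
  unfold Tr at *
  set pa := a0 + a1 * s + a2 * s ^ 2 + a3 * s ^ 3 with hpa
  set pb := b0 + b1 * s + b2 * s ^ 2 + b3 * s ^ 3 with hpb
  have key : x * y - (a0 * b0 + (a0 * b1 + a1 * b0) * s + (a0 * b2 + a1 * b1 + a2 * b0) * s ^ 2 +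
      (a0 * b3 + a1 * b2 + a2 * b1 + a3 * b0) * s ^ 3) =
      s ^ 4 * (a1 * b3 + a2 * b2 + a3 * b1 + (a2 * b3 + a3 * b2) * s + (a3 * b3) * s ^ 2 +
        0 * s ^ 3) +
      (pa * (y - pb) + pb * (x - pa) + (x - pa) * (y - pb)) := by
    rw [hpa, hpb]; ring
  rw [key]
  have hpa' := poly_abs (a0 := a0) (a1 := a1) (a2 := a2) (a3 := a3) h0 h1
  have hpb' := poly_abs (a0 := b0) (a1 := b1) (a2 := b2) (a3 := b3) h0 h1
  rw [← hpa] at hpa'
  rw [← hpb] at hpb'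
  have hq := poly_abs (a0 := a1 * b3 + a2 * b2 + a3 * b1) (a1 := a2 * b3 + a3 * b2)
    (a2 := a3 * b3) (a3 := 0) h0 h1
  have hs4 : 0 ≤ s ^ 4 := by positivity
  have hs41 : s ^ 4 ≤ 1 := pow_le_one₀ h0 h1
  set SA := |a0| + |a1| + |a2| + |a3| with hSA
  set SB := |b0| + |b1| + |b2| + |b3| with hSB
  have hSA0 : 0 ≤ SA := by positivity
  have hSB0 : 0 ≤ SB := by positivity
  have hQ : |a1 * b3 + a2 * b2 + a3 * b1| + |a2 * b3 + a3 * b2| + |a3 * b3| + |(0 : ℝ)| ≤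
      SA * SB := by
    have u1 := abs_add_three (a1 * b3) (a2 * b2) (a3 * b1)
    have u2 := abs_add_le (a2 * b3) (a3 * b2)
    simp only [abs_mul] at *
    rw [abs_zero]
    have v0 := abs_nonneg a0
    have v1 := abs_nonneg a1
    have v2 := abs_nonneg a2
    have v3 := abs_nonneg a3
    have z0 := abs_nonneg b0
    have z1 := abs_nonneg b1
    have z2 := abs_nonneg b2
    have z3 := abs_nonneg b3
    rw [hSA, hSB]
    nlinarith [mul_nonneg v0 z0, mul_nonneg v0 z1, mul_nonneg v0 z2, mul_nonneg v0 z3,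
      mul_nonneg v1 z0, mul_nonneg v1 z1, mul_nonneg v1 z2, mul_nonneg v1 z3,
      mul_nonneg v2 z0, mul_nonneg v2 z1, mul_nonneg v2 z2, mul_nonneg v2 z3,
      mul_nonneg v3 z0, mul_nonneg v3 z1, mul_nonneg v3 z2, mul_nonneg v3 z3]
  refine (abs_add_le _ _).trans ?_
  have r1 : |s ^ 4 * (a1 * b3 + a2 * b2 + a3 * b1 + (a2 * b3 + a3 * b2) * s + (a3 * b3) * s ^ 2 +
        0 * s ^ 3)| ≤ SA * SB * s ^ 4 := by
    rw [abs_mul, abs_of_nonneg hs4]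
    have := mul_le_mul_of_nonneg_left (hq.trans hQ) hs4
    linarith
  have r2 : |pa * (y - pb)| ≤ SA * (L * s ^ 4) := by
    rw [abs_mul]
    exact mul_le_mul hpa' hy (abs_nonneg _) hSA0
  have r3 : |pb * (x - pa)| ≤ SB * (K * s ^ 4) := by
    rw [abs_mul]
    exact mul_le_mul hpb' hx (abs_nonneg _) hSB0
  have r4 : |(x - pa) * (y - pb)| ≤ K * L * s ^ 4 := by
    rw [abs_mul]
    have := mul_le_mul hx hy (abs_nonneg _) (by positivity)
    have h5 : K * s ^ 4 * (L * s ^ 4) = (K * L * s ^ 4) * s ^ 4 := by ring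
    have h6 : (K * L * s ^ 4) * s ^ 4 ≤ (K * L * s ^ 4) * 1 :=
      mul_le_mul_of_nonneg_left hs41 (by positivity)
    linarith
  have r5 := abs_add_three (pa * (y - pb)) (pb * (x - pa)) ((x - pa) * (y - pb))
  have r6 : (SA + K) * (SB + L) * s ^ 4 = SA * SB * s ^ 4 + SA * (L * s ^ 4) + SB * (K * s ^ 4) +
      K * L * s ^ 4 := by ring
  rw [r6]
  linarith

/-- change the coefficients and enlarge the constant -/
lemma Tr.cast {s x a0 a1 a2 a3 K b0 b1 b2 b3 L : ℝ} (h0 : 0 ≤ s) (hx : Tr s x a0 a1 a2 a3 K)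
    (e0 : a0 = b0) (e1 : a1 = b1) (e2 : a2 = b2) (e3 : a3 = b3) (hKL : K ≤ L) :
    Tr s x b0 b1 b2 b3 L := by
  subst e0 e1 e2 e3
  exact le_trans hx (mul_le_mul_of_nonneg_right hKL (by positivity))

/-- the exponential step -/
lemma exp_step (K : ℝ) (hK : 0 ≤ K) : ∃ K1 : ℝ, 0 ≤ K1 ∧ ∀ s X : ℝ, 0 ≤ s → (1 + K) * s ≤ 1 →
    Tr s X 0 (5 / 24) (-19 / 192) (755 / 8064) K →
    Tr s (Real.exp X) 1 (5 / 24) (-89 / 1152) (43265 / 580608) K1 := by
  apply Exists.intro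
  constructor
  rotate_left
  · intro s X h0 hs hX
    have h1 : s ≤ 1 := by nlinarith
    have hX2 := Tr.mul h0 h1 hK hK hX hX
    have hX3 := Tr.mul h0 h1 (by positivity) hK hX2 hX
    -- |X| ≤ (1 + K) s ≤ 1
    have hXabs : |X| ≤ (1 + K) * s := by
      unfold Tr at hX
      have s2 : s ^ 2 ≤ s := by nlinarith
      have s3 : s ^ 3 ≤ s := by nlinarith [pow_nonneg h0 2]
      have s4 : s ^ 4 ≤ s := by nlinarith [pow_nonneg h0 3]
      have p2 : 0 ≤ s ^ 2 := by positivity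
      have p3 : 0 ≤ s ^ 3 := by positivity
      have hK4 : K * s ^ 4 ≤ K * s := mul_le_mul_of_nonneg_left s4 hK
      rw [abs_le] at hX ⊢
      constructor <;> nlinarith [hX.1, hX.2]
    have hX1 : |X| ≤ 1 := hXabs.trans hs
    have hexp := Real.exp_bound hX1 (n := 4) (by norm_num)
    have hsum : ∑ m ∈ Finset.range 4, X ^ m / (m.factorial : ℝ) =
        1 + X + X ^ 2 / 2 + X ^ 3 / 6 := by
      simp [Finset.sum_range_succ, Nat.factorial]
    rw [hsum] at hexp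
    have hX4 : |X| ^ 4 ≤ (1 + K) ^ 4 * s ^ 4 := by
      have := pow_le_pow_left₀ (abs_nonneg X) hXabs 4
      rwa [mul_pow] at this
    have hrem : Tr s (Real.exp X - (1 + X + X ^ 2 / 2 + X ^ 3 / 6)) 0 0 0 0 ((1 + K) ^ 4) := by
      unfold Tr
      have e : Real.exp X - (1 + X + X ^ 2 / 2 + X ^ 3 / 6) - (0 + 0 * s + 0 * s ^ 2 + 0 * s ^ 3) =
        Real.exp X - (1 + X + X ^ 2 / 2 + X ^ 3 / 6) := by ring
      rw [e]
      refine hexp.trans ?_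
      have c1 : ((Nat.succ 4 : ℕ) : ℝ) / (((Nat.factorial 4 : ℕ) : ℝ) * ((4 : ℕ) : ℝ)) ≤ 1 := by
        norm_num [Nat.factorial]
      have c2 : 0 ≤ |X| ^ 4 := by positivity
      calc |X| ^ 4 * (((Nat.succ 4 : ℕ) : ℝ) / (((Nat.factorial 4 : ℕ) : ℝ) * ((4 : ℕ) : ℝ)))
          ≤ |X| ^ 4 * 1 := mul_le_mul_of_nonneg_left c1 c2
        _ ≤ (1 + K) ^ 4 * s ^ 4 := by rw [mul_one]; exact hX4
    have hone : Tr s (1 : ℝ) 1 0 0 0 0 := by
      unfold Tr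
      have : (1 : ℝ) - (1 + 0 * s + 0 * s ^ 2 + 0 * s ^ 3) = 0 := by ring
      rw [this]; simp
    have hfin := ((((hone.add hX).add (hX2.smul (1 / 2))).add (hX3.smul (1 / 6))).add hrem)
    have heq : Real.exp X = 1 + X + 1 / 2 * (X * X) + 1 / 6 * (X * X * X) +
        (Real.exp X - (1 + X + X ^ 2 / 2 + X ^ 3 / 6)) := by ring
    rw [heq]
    refine hfin.cast h0 ?_ ?_ ?_ ?_ le_rfl <;> norm_num
  · positivity

/-- the polynomial step of the inversion -/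
lemma poly_step (K : ℝ) (hK : 0 ≤ K) : ∃ K1 : ℝ, 0 ≤ K1 ∧ ∀ s G : ℝ, 0 ≤ s → s ≤ 1 →
    Tr s G 1 (5 / 24) (-89 / 1152) (43265 / 580608) K →
    |G ^ 5 - G ^ 6 + cc * s * G ^ 4 - bb * s ^ 2 * G ^ 2 - aa * s ^ 3| ≤ K1 * s ^ 4 := by
  apply Exists.intro
  constructor
  rotate_left
  · intro s G h0 h1 hG
    have hG2 := Tr.mul h0 h1 hK hK hG hG
    have hG4 := Tr.mul h0 h1 (by positivity) (by positivity) hG2 hG2
    have hG5 := Tr.mul h0 h1 (by positivity) hK hG4 hG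
    have hG6 := Tr.mul h0 h1 (by positivity) (by positivity) hG4 hG2
    have hsG4 := hG4.shift h0 h1 (by positivity)
    have hsG2 := hG2.shift h0 h1 (by positivity)
    have hssG2 := hsG2.shift h0 h1 (by positivity)
    have hcub : Tr s (aa * s ^ 3) 0 0 0 aa 0 := by
      unfold Tr
      have : aa * s ^ 3 - (0 + 0 * s + 0 * s ^ 2 + aa * s ^ 3) = 0 := by ring
      rw [this]; simp
    have hfin := (((hG5.add (hG6.smul (-1))).add (hsG4.smul cc)).add (hssG2.smul (-bb))).add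
      (hcub.smul (-1))
    have heq : G ^ 5 - G ^ 6 + cc * s * G ^ 4 - bb * s ^ 2 * G ^ 2 - aa * s ^ 3 =
        G * G * (G * G) * G + -1 * (G * G * (G * G) * (G * G)) + cc * (s * (G * G * (G * G))) +
        -bb * (s * (s * (G * G))) + -1 * (aa * s ^ 3) := by ring
    rw [heq]
    have hfin' := hfin.cast (b0 := 0) (b1 := 0) (b2 := 0) (b3 := 0) h0 ?_ ?_ ?_ ?_ le_rfl
    · unfold Tr at hfin'
      rw [show (0 + 0 * s + 0 * s ^ 2 + 0 * s ^ 3 : ℝ) = 0 by ring, sub_zero] at hfin'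
      exact hfin'
    · norm_num
    · unfold cc; norm_num
    · unfold cc bb; norm_num
    · unfold cc bb aa; norm_num
  · positivity

/-- inversion -/
theorem inversion (K : ℝ) (hK : 0 ≤ K) : ∃ N0 K' : ℝ, 1 ≤ N0 ∧ 0 ≤ K' ∧ ∀ N z : ℝ, N0 ≤ N → 0 < z →
    |Real.log z - TT N| ≤ K / N ^ 8 →
    N / 2 ≤ z ∧ z ≤ 2 * N ∧ |N / z - PP (1 / z ^ 2)| ≤ K' * (1 / z ^ 2) ^ 4 := by
  obtain ⟨K1, hK1, hexp⟩ := exp_step K hK
  obtain ⟨K2, hK2, hpoly⟩ := poly_step K1 hK1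
  refine ⟨2 + K + K1, 2 ^ 14 * K2, by linarith, by positivity, ?_⟩
  intro N z hN hz hlog
  have hN2 : 2 ≤ N := by linarith
  have hNpos : 0 < N := by linarith
  set s : ℝ := 1 / N ^ 2 with hs
  have hspos : 0 < s := by positivity
  -- (2 + K + K1) s ≤ 1/2
  have hsm : (2 + K + K1) * s ≤ 1 / 2 := by
    rw [hs, mul_one_div, div_le_iff₀ (by positivity)]
    nlinarith
  have hK1s : K1 * s ≤ 1 / 2 := by nlinarith
  have hs4 : s ≤ 1 / 4 := by
    rw [hs, div_le_iff₀ (by positivity)]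
    nlinarith
  set X : ℝ := Real.log z - Real.log N with hX
  have hTX : Tr s X 0 (5 / 24) (-19 / 192) (755 / 8064) K := by
    unfold Tr
    have e1 : X - (0 + 5 / 24 * s + -19 / 192 * s ^ 2 + 755 / 8064 * s ^ 3) =
        Real.log z - TT N := by
      rw [hX, hs]
      unfold TT
      rw [div_pow, div_pow, one_pow, one_pow]
      ring
    have e2 : K * s ^ 4 = K / N ^ 8 := by
      rw [hs, div_pow, one_pow]
      ring
    rw [e1, e2]
    exact hlog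
  have hG := hexp s X hspos.le (by nlinarith) hTX
  have hexpX : Real.exp X = z / N := by
    rw [hX, Real.exp_sub, Real.exp_log hz, Real.exp_log hNpos]
  rw [hexpX] at hG
  set G : ℝ := z / N with hGdef
  have hGpos : 0 < G := by positivity
  have hFG := hpoly s G hspos.le (by linarith) hG
  -- bounds for G
  have hGb : 1 / 2 ≤ G ∧ G ≤ 2 := by
    have hs3 : K1 * s ^ 4 ≤ 1 / 8 := by
      have : s ^ 4 = s * (s * s ^ 2) := by ring
      have h2 : s * s ^ 2 ≤ 1 / 4 * 1 := by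
        apply mul_le_mul hs4 (pow_le_one₀ hspos.le (by linarith)) (by positivity) (by norm_num)
      have h3 : 0 ≤ s * s ^ 2 := by positivity
      calc K1 * s ^ 4 = (K1 * s) * (s * s ^ 2) := by ring
        _ ≤ 1 / 2 * (1 / 4 * 1) := mul_le_mul hK1s h2 h3 (by norm_num)
        _ = 1 / 8 := by norm_num
    have q2 : s ^ 2 ≤ 1 / 4 := by nlinarith
    have q3 : s ^ 3 ≤ 1 / 4 := by nlinarith [sq_nonneg s]
    have p2 : 0 ≤ s ^ 2 := by positivity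
    have p3 : 0 ≤ s ^ 3 := by positivity
    unfold Tr at hG
    rw [abs_le] at hG
    constructor <;> nlinarith [hG.1, hG.2]
  have hzN : z = G * N := by rw [hGdef]; field_simp
  refine ⟨by rw [hzN]; nlinarith [hGb.1], by rw [hzN]; nlinarith [hGb.2], ?_⟩
  have hw : 1 / z ^ 2 = s / G ^ 2 := by
    rw [hzN, hs]; field_simp
  have hNz : N / z = 1 / G := by rw [hzN]; field_simp
  rw [hw, hNz]
  have key : 1 / G - PP (s / G ^ 2) =
      (G ^ 5 - G ^ 6 + cc * s * G ^ 4 - bb * s ^ 2 * G ^ 2 - aa * s ^ 3) / G ^ 6 := by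
    unfold PP
    field_simp
    ring
  rw [key, abs_div, abs_of_pos (by positivity : 0 < G ^ 6)]
  have h6 : (1 / 2 : ℝ) ^ 6 ≤ G ^ 6 := pow_le_pow_left₀ (by norm_num) hGb.1 6
  have h8 : G ^ 8 ≤ 2 ^ 8 := pow_le_pow_left₀ hGpos.le hGb.2 8
  rw [div_le_iff₀ (by positivity)]
  refine hFG.trans ?_
  have e3 : 2 ^ 14 * K2 * (s / G ^ 2) ^ 4 * G ^ 6 = K2 * s ^ 4 * (2 ^ 14 * G ^ 6 / G ^ 8) := by
    field_simp
  rw [e3]
  have e4 : (1 : ℝ) ≤ 2 ^ 14 * G ^ 6 / G ^ 8 := by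
    rw [le_div_iff₀ (by positivity)]
    have : (2 : ℝ) ^ 8 ≤ 2 ^ 14 * G ^ 6 := by
      have := mul_le_mul_of_nonneg_left h6 (by norm_num : (0 : ℝ) ≤ 2 ^ 14)
      refine le_trans ?_ this
      norm_num
    linarith
  have := mul_le_mul_of_nonneg_left e4 (by positivity : 0 ≤ K2 * s ^ 4)
  linarith

end Pool.Agent.H87.TanSum
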