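import Mathlib
import Pool.Agent.H87.TanSum.Inv

/-!
Four pairs of half-integers with the same ratio `y` of the parameters `z`: the gap lemma.
-/

namespace Pool.Agent.H87.TanSum

lemma mk_row {K y z u v : ℝ} (hK : 0 ≤ K) (hy : 0 < y) (hy2 : 20 ≤ y ^ 2) (hz : 0 < z)
    (hz1 : 1 ≤ z ^ 2)
    (hu : |u / z - PP (1 / z ^ 2)| ≤ K * (1 / z ^ 2) ^ 4)
    (hv : |v / (y * z) - PP (1 / (y * z) ^ 2)| ≤ K * (1 / (y * z) ^ 2) ^ 4) :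
    Row (4 + 8 * K + 2 * K ^ 2) (1 / y ^ 2) (1 / z ^ 2) (u ^ 2) (u * v / y) (v ^ 2 / y ^ 2) := by
  set w : ℝ := 1 / z ^ 2 with hw
  set Y : ℝ := 1 / y ^ 2 with hY
  have hwpos : 0 < w := by positivity
  have hYpos : 0 < Y := by positivity
  have hw1 : w ≤ 1 := by rw [hw, div_le_one (by positivity)]; exact hz1
  have hY1 : Y ≤ 1 := by rw [hY, div_le_one (by positivity)]; linarith
  have hYw : 1 / (y * z) ^ 2 = Y * w := by rw [hY, hw]; field_simp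
  rw [hYw] at hv
  set e1 : ℝ := u / z - PP w with he1
  set e2 : ℝ := v / (y * z) - PP (Y * w) with he2
  have hv' : |e2| ≤ K * w ^ 4 := by
    refine hv.trans ?_
    have : (Y * w) ^ 4 ≤ w ^ 4 := pow_le_pow_left₀ (by positivity) (by nlinarith) 4
    exact mul_le_mul_of_nonneg_left this hK
  have hU : u = z * (PP (1 * w) + e1) := by rw [he1, one_mul]; field_simp; ring
  have hV : v = y * z * (PP (Y * w) + e2) := by rw [he2]; field_simp; ring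
  have hzw : z ^ 2 = 1 / w := by rw [hw]; field_simp
  have P1 := prod_exp (Y1 := 1) (Y2 := 1) hK zero_le_one le_rfl zero_le_one le_rfl hwpos hw1 hu hu
  have P2 := prod_exp (Y1 := 1) (Y2 := Y) hK zero_le_one le_rfl hYpos.le hY1 hwpos hw1 hu hv'
  have P3 := prod_exp (Y1 := Y) (Y2 := Y) hK hYpos.le hY1 hYpos.le hY1 hwpos hw1 hv' hv'
  have p1 : (PP (1 * w) + e1) * (PP (1 * w) + e1) / w = u ^ 2 := by
    have : u ^ 2 = z ^ 2 * ((PP (1 * w) + e1) * (PP (1 * w) + e1)) := by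
      nth_rewrite 1 [hU]; ring
    rw [this, hzw]; ring
  have p2 : (PP (1 * w) + e1) * (PP (Y * w) + e2) / w = u * v / y := by
    have : u * v / y = z ^ 2 * ((PP (1 * w) + e1) * (PP (Y * w) + e2)) := by
      nth_rewrite 1 [hU]
      nth_rewrite 1 [hV]
      field_simp
    rw [this, hzw]; ring
  have p3 : (PP (Y * w) + e2) * (PP (Y * w) + e2) / w = v ^ 2 / y ^ 2 := by
    have : v ^ 2 / y ^ 2 = z ^ 2 * ((PP (Y * w) + e2) * (PP (Y * w) + e2)) := by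
      nth_rewrite 1 [hV]
      field_simp
    rw [this, hzw]; ring
  rw [p1] at P1
  rw [p2] at P2
  rw [p3] at P3
  have hK3 : 0 ≤ K ^ 2 := by positivity
  refine ⟨?_, ?_, ?_⟩
  · have h2 : |(2 * bb + cc ^ 2) * w + (2 * aa - 2 * bb * cc) * w ^ 2| ≤ 1 * w := by
      have hw2 : w ^ 2 ≤ w := by nlinarith
      have hw2' : 0 ≤ w ^ 2 := by positivity
      unfold aa bb cc
      rw [abs_le]
      constructor <;> nlinarith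
    have hw3 : w ^ 3 ≤ w := by
      have : w ^ 3 = w * w ^ 2 := by ring
      have h3 : w ^ 2 ≤ 1 := pow_le_one₀ hwpos.le hw1
      nlinarith
    have h4 : (1 + 4 * K + K ^ 2) * w ^ 3 ≤ (1 + 4 * K + K ^ 2) * w :=
      mul_le_mul_of_nonneg_left hw3 (by positivity)
    have h5 : u ^ 2 - (1 / w - 2 * cc) = (u ^ 2 - (1 / w - cc * (1 + 1) +
        (bb * 1 ^ 2 + bb * 1 ^ 2 + cc ^ 2 * 1 * 1) * w +
        (aa * 1 ^ 3 + aa * 1 ^ 3 - bb * cc * 1 ^ 2 * 1 - bb * cc * 1 * 1 ^ 2) * w ^ 2)) +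
        ((2 * bb + cc ^ 2) * w + (2 * aa - 2 * bb * cc) * w ^ 2) := by ring
    rw [h5]
    refine (abs_add_le _ _).trans ?_
    nlinarith
  · have h5 : u * v / y - u ^ 2 - cc * (1 - Y) - (be2 Y * w + al2 Y * w ^ 2) =
        (u * v / y - (1 / w - cc * (1 + Y) +
        (bb * 1 ^ 2 + bb * Y ^ 2 + cc ^ 2 * 1 * Y) * w +
        (aa * 1 ^ 3 + aa * Y ^ 3 - bb * cc * 1 ^ 2 * Y - bb * cc * 1 * Y ^ 2) * w ^ 2)) +
        -(u ^ 2 - (1 / w - cc * (1 + 1) +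
        (bb * 1 ^ 2 + bb * 1 ^ 2 + cc ^ 2 * 1 * 1) * w +
        (aa * 1 ^ 3 + aa * 1 ^ 3 - bb * cc * 1 ^ 2 * 1 - bb * cc * 1 * 1 ^ 2) * w ^ 2)) := by
      unfold be2 al2; ring
    rw [h5]
    refine (abs_add_le _ _).trans ?_
    rw [abs_neg]
    nlinarith [pow_pos hwpos 3]
  · have h5 : v ^ 2 / y ^ 2 - u ^ 2 - 2 * cc * (1 - Y) - (be3 Y * w + al3 Y * w ^ 2) =
        (v ^ 2 / y ^ 2 - (1 / w - cc * (Y + Y) +
        (bb * Y ^ 2 + bb * Y ^ 2 + cc ^ 2 * Y * Y) * w +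
        (aa * Y ^ 3 + aa * Y ^ 3 - bb * cc * Y ^ 2 * Y - bb * cc * Y * Y ^ 2) * w ^ 2)) +
        -(u ^ 2 - (1 / w - cc * (1 + 1) +
        (bb * 1 ^ 2 + bb * 1 ^ 2 + cc ^ 2 * 1 * 1) * w +
        (aa * 1 ^ 3 + aa * 1 ^ 3 - bb * cc * 1 ^ 2 * 1 - bb * cc * 1 * 1 ^ 2) * w ^ 2)) := by
      unfold be3 al3; ring
    rw [h5]
    refine (abs_add_le _ _).trans ?_
    rw [abs_neg]
    nlinarith [pow_pos hwpos 3]

/-- the integer determinant -/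
def DZ (a b : Fin 4 → ℤ) : ℤ :=
  ((a 3) ^ 2 - (a 2) ^ 2) * ((a 0 * b 0) * (b 1) ^ 2 - (a 1 * b 1) * (b 0) ^ 2) -
  ((a 3) ^ 2 - (a 1) ^ 2) * ((a 0 * b 0) * (b 2) ^ 2 - (a 2 * b 2) * (b 0) ^ 2) +
  ((a 3) ^ 2 - (a 0) ^ 2) * ((a 1 * b 1) * (b 2) ^ 2 - (a 2 * b 2) * (b 1) ^ 2) +
  ((a 2) ^ 2 - (a 1) ^ 2) * ((a 0 * b 0) * (b 3) ^ 2 - (a 3 * b 3) * (b 0) ^ 2) -
  ((a 2) ^ 2 - (a 0) ^ 2) * ((a 1 * b 1) * (b 3) ^ 2 - (a 3 * b 3) * (b 1) ^ 2) +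
  ((a 1) ^ 2 - (a 0) ^ 2) * ((a 2 * b 2) * (b 3) ^ 2 - (a 3 * b 3) * (b 2) ^ 2)

lemma DZ_eq {y : ℝ} (hy : 0 < y) (a b : Fin 4 → ℤ) (u v : Fin 4 → ℝ) (ha : ∀ i, 2 * u i = a i)
    (hb : ∀ i, 2 * v i = b i) :
    ((DZ a b : ℤ) : ℝ) = 64 * y ^ 3 * D4 ((u 0) ^ 2) ((u 1) ^ 2) ((u 2) ^ 2) ((u 3) ^ 2)
      (u 0 * v 0 / y) (u 1 * v 1 / y) (u 2 * v 2 / y) (u 3 * v 3 / y)
      ((v 0) ^ 2 / y ^ 2) ((v 1) ^ 2 / y ^ 2) ((v 2) ^ 2 / y ^ 2) ((v 3) ^ 2 / y ^ 2) := by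
  unfold DZ D4
  push_cast
  simp only [← ha, ← hb]
  field_simp
  ring

theorem gap (K : ℝ) (hK : 0 ≤ K) : ∃ N0 : ℝ, 1 ≤ N0 ∧ ∀ (y : ℝ) (z u v : Fin 4 → ℝ)
    (a b : Fin 4 → ℤ), 0 < y → 20 ≤ y ^ 2 → (∀ i, 0 < z i) → (∀ i, N0 ≤ u i) → (∀ i, N0 ≤ v i) →
    (∀ i, 2 * u i = a i) → (∀ i, 2 * v i = b i) →
    (∀ i, |Real.log (z i) - TT (u i)| ≤ K / (u i) ^ 8) →
    (∀ i, |Real.log (y * z i) - TT (v i)| ≤ K / (v i) ^ 8) →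
    20 * (z 0) ^ 2 ≤ (z 1) ^ 2 → 20 * (z 1) ^ 2 ≤ (z 2) ^ 2 → 20 * (z 2) ^ 2 ≤ (z 3) ^ 2 →
    1 ≤ 64 * y ^ 3 * ((z 3) ^ 2 / ((z 0) ^ 4 * (z 1) ^ 2)) := by
  obtain ⟨N1, K', hN1, hK', hinv⟩ := inversion K hK
  obtain ⟨w0, hw0, hD⟩ := D4_bounds (K := 4 + 8 * K' + 2 * K' ^ 2) (by positivity)
  have hw0' : 0 < 4 / w0 := by positivity
  refine ⟨N1 + 4 / w0 + 2, by linarith, ?_⟩
  intro y z u v a b hy hy2 hz hu hv ha hb hlu hlv h01 h12 h23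
  have I1 : ∀ i, u i / 2 ≤ z i ∧ z i ≤ 2 * u i ∧
      |u i / z i - PP (1 / (z i) ^ 2)| ≤ K' * (1 / (z i) ^ 2) ^ 4 := fun i =>
    hinv (u i) (z i) (by linarith [hu i]) (hz i) (hlu i)
  have I2 : ∀ i, |v i / (y * z i) - PP (1 / (y * z i) ^ 2)| ≤ K' * (1 / (y * z i) ^ 2) ^ 4 :=
    fun i => (hinv (v i) (y * z i) (by linarith [hv i]) (mul_pos hy (hz i)) (hlv i)).2.2
  have hz1 : ∀ i, 1 ≤ (z i) ^ 2 := by
    intro i
    have h1 := (I1 i).1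
    have h2 := hu i
    have h3 : 1 ≤ z i := by linarith
    nlinarith
  have R : ∀ i, Row (4 + 8 * K' + 2 * K' ^ 2) (1 / y ^ 2) (1 / (z i) ^ 2) ((u i) ^ 2)
      (u i * v i / y) ((v i) ^ 2 / y ^ 2) := fun i =>
    mk_row hK' hy hy2 (hz i) (hz1 i) (I1 i).2.2 (I2 i)
  have hzsq : ∀ i, 0 < (z i) ^ 2 := fun i => by have := hz i; positivity
  have step : ∀ i j, 20 * (z i) ^ 2 ≤ (z j) ^ 2 → 1 / (z j) ^ 2 ≤ 1 / (z i) ^ 2 / 20 := by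
    intro i j h
    rw [div_div, one_div_le_one_div (hzsq j) (by have := hzsq i; positivity)]
    linarith
  have hwsmall : 1 / (z 0) ^ 2 ≤ w0 := by
    have h1 := (I1 0).1
    have h2 := hu 0
    have h3 : 2 / w0 ≤ z 0 := by
      have : 4 / w0 = 2 * (2 / w0) := by ring
      linarith
    have h4 : 1 ≤ z 0 := by linarith
    rw [div_le_iff₀ (hzsq 0)]
    have h5 : 1 ≤ w0 * z 0 := by
      rw [div_le_iff₀ hw0] at h3
      linarith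
    nlinarith
  have hY0 : 0 ≤ 1 / y ^ 2 := by positivity
  have hY1 : 1 / y ^ 2 ≤ 1 / 20 := one_div_le_one_div_of_le (by norm_num) hy2
  obtain ⟨hpos, hle⟩ := hD (1 / y ^ 2) (1 / (z 0) ^ 2) (1 / (z 1) ^ 2) (1 / (z 2) ^ 2)
    (1 / (z 3) ^ 2) _ _ _ _ _ _ _ _ _ _ _ _ hY0 hY1 (by have := hzsq 3; positivity)
    (step 2 3 h23) (step 1 2 h12) (step 0 1 h01) hwsmall (R 0) (R 1) (R 2) (R 3)
  have hDZ := DZ_eq hy a b u v ha hb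
  have hDpos : (0 : ℝ) < ((DZ a b : ℤ) : ℝ) := by
    rw [hDZ]
    exact mul_pos (by positivity) hpos
  have hDge : (1 : ℝ) ≤ ((DZ a b : ℤ) : ℝ) := by
    have : 0 < DZ a b := by exact_mod_cast hDpos
    exact_mod_cast this
  rw [hDZ] at hDge
  refine hDge.trans ?_
  refine mul_le_mul_of_nonneg_left (hle.trans (le_of_eq ?_)) (by positivity)
  have := hz 0
  have := hz 1
  have := hz 3
  field_simp

end Pool.Agent.H87.TanSum
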