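import Mathlib
import Pool.Agent.H87.TanSum.Gap

/-!
Counting: the set of `n` such that `∑ arctan (1/k)` is within `K/n⁸` of a multiple of `π/2` has
`O(√(log N))` elements up to `N`.
-/

namespace Pool.Agent.H87.TanSum

open Finset

/-- a finite set of integers in `(X, 2X]` in which every positive difference occurs at most three
times has at most `4 √X` elements -/
lemma sidon_like {X : ℕ} (hX : 1 ≤ X) (A : Finset ℤ) (hA : ∀ a ∈ A, (X : ℤ) < a ∧ a ≤ 2 * X)
    (h : ∀ d : ℤ, 0 < d → (A.filter (fun a => a + d ∈ A)).card ≤ 3) :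
    (A.card : ℝ) ≤ 4 * Real.sqrt X := by
  classical
  set P := (A ×ˢ A).filter (fun p => p.1 < p.2) with hP
  set P' := (A ×ˢ A).filter (fun p => p.2 < p.1) with hP'
  set Dg := (A ×ˢ A).filter (fun p => p.1 = p.2) with hDg
  have hPP' : P'.card = P.card := by
    apply Finset.card_bij (fun p _ => (p.2, p.1))
    · intro p hp
      simp only [hP, hP', mem_filter, mem_product] at hp ⊢
      exact ⟨⟨hp.1.2, hp.1.1⟩, hp.2⟩
    · intro p _ q _ hpq
      simp only [Prod.mk.injEq] at hpq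
      exact Prod.ext hpq.2 hpq.1
    · intro p hp
      simp only [hP, mem_filter, mem_product] at hp
      exact ⟨(p.2, p.1), by simp only [hP', mem_filter, mem_product]; exact ⟨⟨hp.1.2, hp.1.1⟩, hp.2⟩,
        rfl⟩
  have hDgc : Dg.card ≤ A.card := by
    apply Finset.card_le_card_of_injOn (fun p => p.1)
    · intro p hp
      simp only [hDg, coe_filter, mem_product, Set.mem_ofPred_eq] at hp
      exact hp.1.1
    · intro p hp q hq hpq
      simp only [hDg, coe_filter, mem_product, Set.mem_ofPred_eq] at hp hq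
      simp only at hpq
      exact Prod.ext hpq (by rw [← hp.2, ← hq.2, hpq])
  have htot : A.card * A.card ≤ P.card + P'.card + Dg.card := by
    have hsub : A ×ˢ A ⊆ P ∪ P' ∪ Dg := by
      intro p hp
      simp only [hP, hP', hDg, mem_union, mem_filter]
      rcases lt_trichotomy p.1 p.2 with h1 | h1 | h1
      · exact Or.inl (Or.inl ⟨hp, h1⟩)
      · exact Or.inr ⟨hp, h1⟩
      · exact Or.inl (Or.inr ⟨hp, h1⟩)
    calc A.card * A.card = (A ×ˢ A).card := (card_product _ _).symm
      _ ≤ (P ∪ P' ∪ Dg).card := card_le_card hsub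
      _ ≤ (P ∪ P').card + Dg.card := card_union_le _ _
      _ ≤ P.card + P'.card + Dg.card := by
        have := card_union_le P P'
        omega
  have hPc : P.card ≤ 3 * X := by
    have h1 : P.card ≤ 3 * (P.image (fun p => p.2 - p.1)).card := by
      apply Finset.card_le_mul_card_image
      intro d hd
      rw [mem_image] at hd
      obtain ⟨q, hq, hqd⟩ := hd
      have hd0 : 0 < d := by
        simp only [hP, mem_filter] at hq
        omega
      refine le_trans ?_ (h d hd0)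
      apply Finset.card_le_card_of_injOn (fun p => p.1)
      · intro p hp
        simp only [hP, coe_filter, mem_filter, mem_product, Set.mem_ofPred_eq] at hp ⊢
        refine ⟨hp.1.1.1, ?_⟩
        have : p.1 + d = p.2 := by omega
        rw [this]
        exact hp.1.1.2
      · intro p hp q hq hpq
        simp only [hP, coe_filter, mem_filter, mem_product, Set.mem_ofPred_eq] at hp hq
        simp only at hpq
        refine Prod.ext hpq ?_
        omega
    have h2 : (P.image (fun p => p.2 - p.1)).card ≤ X := by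
      have : P.image (fun p => p.2 - p.1) ⊆ Finset.Ioc (0 : ℤ) X := by
        intro d hd
        rw [mem_image] at hd
        obtain ⟨q, hq, hqd⟩ := hd
        simp only [hP, mem_filter, mem_product] at hq
        have := hA _ hq.1.1
        have := hA _ hq.1.2
        rw [mem_Ioc]
        omega
      have h3 := card_le_card this
      simpa using h3
    calc P.card ≤ 3 * (P.image (fun p => p.2 - p.1)).card := h1
      _ ≤ 3 * X := Nat.mul_le_mul_left 3 h2
  have hfin : A.card * A.card ≤ 6 * X + A.card := by omega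
  -- now the real estimate
  set m : ℝ := (A.card : ℝ) with hm
  have hmm : m * m ≤ 6 * X + m := by
    rw [hm]; exact_mod_cast hfin
  have hX' : (1 : ℝ) ≤ X := by exact_mod_cast hX
  set r := Real.sqrt X with hr
  have hrr : r * r = X := Real.mul_self_sqrt (by positivity)
  have hr1 : 1 ≤ r := by
    rw [hr]; exact Real.one_le_sqrt.mpr hX'
  by_contra hcon
  push Not at hcon
  nlinarith

/-- from dyadic windows to the whole interval -/
lemma dyadic {J : Set ℤ} {X0 : ℕ} (hX0 : 1 ≤ X0)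
    (h : ∀ X : ℕ, X0 ≤ X → ∀ A : Finset ℤ, (∀ a ∈ A, a ∈ J ∧ (X : ℤ) < a ∧ a ≤ 2 * X) →
      (A.card : ℝ) ≤ 4 * Real.sqrt X) :
    ∀ X : ℕ, ∀ A : Finset ℤ, (∀ a ∈ A, a ∈ J ∧ 0 < a ∧ a ≤ X) →
      (A.card : ℝ) ≤ 2 * X0 + 2 + 40 * Real.sqrt X := by
  classical
  intro X
  induction X using Nat.strong_induction_on with
  | _ X ih =>
    intro A hA
    by_cases hX : X ≤ 2 * X0 + 2
    · have h1 : A ⊆ Finset.Ioc (0 : ℤ) X := by
        intro a ha
        have := hA a ha
        rw [mem_Ioc]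
        exact ⟨this.2.1, this.2.2⟩
      have h2 := card_le_card h1
      have h3 : A.card ≤ X := by simpa using h2
      have h4 : (A.card : ℝ) ≤ 2 * X0 + 2 := by
        have : A.card ≤ 2 * X0 + 2 := h3.trans hX
        exact_mod_cast this
      have := Real.sqrt_nonneg (X : ℝ)
      linarith
    · push Not at hX
      set H := (X + 1) / 2 with hH
      have hH1 : H < X := by omega
      have hH2 : X ≤ 2 * H := by omega
      have hH3 : X0 ≤ H := by omega
      set A1 := A.filter (fun a => a ≤ (H : ℤ)) with hA1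
      set A2 := A.filter (fun a => ¬ a ≤ (H : ℤ)) with hA2
      have hsplit : A1.card + A2.card = A.card := card_filter_add_card_filter_not _
      have i1 := ih H hH1 A1 (by
        intro a ha
        rw [hA1, mem_filter] at ha
        exact ⟨(hA a ha.1).1, (hA a ha.1).2.1, ha.2⟩)
      have i2 := h H hH3 A2 (by
        intro a ha
        rw [hA2, mem_filter] at ha
        have := hA a ha.1
        refine ⟨this.1, by omega, ?_⟩
        have := this.2.2
        omega)
      have hs : Real.sqrt H ≤ 9 / 10 * Real.sqrt X := by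
        have e1 : (H : ℝ) ≤ (9 / 10) ^ 2 * X := by
          have : 4 * H ≤ 3 * X := by omega
          have : (4 : ℝ) * H ≤ 3 * X := by exact_mod_cast this
          have hx : (0 : ℝ) ≤ X := by positivity
          nlinarith
        calc Real.sqrt H ≤ Real.sqrt ((9 / 10) ^ 2 * X) := Real.sqrt_le_sqrt e1
          _ = 9 / 10 * Real.sqrt X := by
            rw [Real.sqrt_mul (by norm_num), Real.sqrt_sq (by norm_num)]
      have hcast : (A.card : ℝ) = A1.card + A2.card := by
        rw [← hsplit]; push_cast; ring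
      rw [hcast]
      linarith

/-- the approximation condition -/
def Near (K : ℝ) (n : ℕ) : Prop :=
  ∃ j : ℤ, |SS n - j * (Real.pi / 2)| ≤ K / ((n : ℝ) + 1 / 2) ^ 8

lemma exp_pi_sq : (20 : ℝ) ≤ Real.exp (Real.pi / 2) ^ 2 := by
  rw [← Real.exp_nat_mul]
  have h1 : (3 : ℝ) ≤ ((2 : ℕ) : ℝ) * (Real.pi / 2) := by
    push_cast
    linarith [Real.pi_gt_three]
  have h2 : Real.exp 3 ≤ Real.exp (((2 : ℕ) : ℝ) * (Real.pi / 2)) := Real.exp_le_exp.mpr h1
  have h3 : (20 : ℝ) ≤ Real.exp 3 := by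
    have e1 : Real.exp 3 = Real.exp 1 ^ 3 := by
      rw [← Real.exp_nat_mul]; norm_num
    rw [e1]
    have := Real.exp_one_gt_d9
    have h4 : (2.7182818283 : ℝ) ^ 3 ≤ Real.exp 1 ^ 3 :=
      pow_le_pow_left₀ (by norm_num) this.le 3
    refine le_trans ?_ h4
    norm_num
  linarith

/-- powers of `exp (π/2)` -/
lemma exp_pi_sq_pow {d : ℤ} (hd : 0 < d) : (20 : ℝ) ≤ Real.exp (d * (Real.pi / 2)) ^ 2 := by
  have h1 : Real.exp (Real.pi / 2) ≤ Real.exp (d * (Real.pi / 2)) := by
    apply Real.exp_le_exp.mpr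
    have : (1 : ℝ) ≤ d := by exact_mod_cast hd
    have := Real.pi_pos
    nlinarith
  exact exp_pi_sq.trans (pow_le_pow_left₀ (Real.exp_pos _).le h1 2)

theorem near_count (K0 : ℝ) (hK0 : 0 ≤ K0) : ∃ C : ℝ, 0 < C ∧ ∀ N : ℕ, 2 ≤ N → ∀ A : Finset ℕ,
    (∀ n ∈ A, n ≤ N ∧ Near K0 n) → (A.card : ℝ) ≤ C * Real.sqrt (Real.log N) := by
  classical
  obtain ⟨C0, hC0⟩ := SS_asym
  set K : ℝ := K0 + 130 with hK
  have hKpos : 0 ≤ K := by positivity
  obtain ⟨N1, K1, hN1, hK1, hinv⟩ := inversion K hKpos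
  obtain ⟨N2, hN2, hgap⟩ := gap K hKpos
  -- threshold for `n`
  set n0 : ℕ := ⌈N1 + N2 + 2 * K1 * 256 + 4 * Real.exp (-C0) + 4⌉₊ with hn0
  have hn0' : N1 + N2 + 2 * K1 * 256 + 4 * Real.exp (-C0) + 4 ≤ (n0 : ℝ) := Nat.le_ceil _
  have hexpC : 0 < Real.exp (-C0) := Real.exp_pos _
  -- the parameter z
  set zz : ℤ → ℝ := fun j => Real.exp (j * (Real.pi / 2) - C0) with hzz
  have hzpos : ∀ j, 0 < zz j := fun j => Real.exp_pos _
  have hlogz : ∀ j, Real.log (zz j) = j * (Real.pi / 2) - C0 := fun j => Real.log_exp _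
  have hclose : ∀ (n : ℕ) (j : ℤ), |SS n - j * (Real.pi / 2)| ≤ K0 / ((n : ℝ) + 1 / 2) ^ 8 →
      |Real.log (zz j) - TT ((n : ℝ) + 1 / 2)| ≤ K / ((n : ℝ) + 1 / 2) ^ 8 := by
    intro n j h
    rw [hlogz]
    have h2 := hC0 n
    have h3 : (j : ℝ) * (Real.pi / 2) - C0 - TT ((n : ℝ) + 1 / 2) =
        -(SS n - j * (Real.pi / 2)) + (SS n - (C0 + TT ((n : ℝ) + 1 / 2))) := by ring
    rw [h3]
    refine (abs_add_le _ _).trans ?_
    rw [abs_neg, hK, add_div]
    linarith
  -- the set J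
  set J : Set ℤ := {j | ∃ n : ℕ, n0 ≤ n ∧
    |SS n - j * (Real.pi / 2)| ≤ K0 / ((n : ℝ) + 1 / 2) ^ 8} with hJ
  have hinvJ : ∀ (n : ℕ) (j : ℤ), n0 ≤ n →
      |SS n - j * (Real.pi / 2)| ≤ K0 / ((n : ℝ) + 1 / 2) ^ 8 →
      ((n : ℝ) + 1 / 2) / 2 ≤ zz j ∧ zz j ≤ 2 * ((n : ℝ) + 1 / 2) ∧
      |((n : ℝ) + 1 / 2) / zz j - PP (1 / (zz j) ^ 2)| ≤ K1 * (1 / (zz j) ^ 2) ^ 4 := by
    intro n j hn h
    have hn' : (n0 : ℝ) ≤ n := by exact_mod_cast hn
    exact hinv _ _ (by linarith) (hzpos j) (hclose n j h)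
  -- injectivity
  have hinj : ∀ (n n' : ℕ) (j : ℤ), n0 ≤ n → n0 ≤ n' →
      |SS n - j * (Real.pi / 2)| ≤ K0 / ((n : ℝ) + 1 / 2) ^ 8 →
      |SS n' - j * (Real.pi / 2)| ≤ K0 / ((n' : ℝ) + 1 / 2) ^ 8 → n = n' := by
    intro n n' j hn hn' h h'
    obtain ⟨a1, a2, a3⟩ := hinvJ n j hn h
    obtain ⟨b1, b2, b3⟩ := hinvJ n' j hn' h'
    have hnr : (n0 : ℝ) ≤ n := by exact_mod_cast hn
    have hz4 : 256 * K1 + 1 ≤ zz j := by linarith
    have hz1 : 1 ≤ zz j := by linarith [mul_nonneg (by norm_num : (0:ℝ) ≤ 256) hK1]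
    have hz := hzpos j
    set z := zz j with hzdef
    -- the error is < 1/(2z)
    have herr : K1 * (1 / z ^ 2) ^ 4 ≤ 1 / 4 * (1 / z) := by
      have e1 : K1 * (1 / z ^ 2) ^ 4 = K1 / z ^ 8 := by
        rw [div_pow, one_pow]; ring
      rw [e1, ← div_eq_mul_one_div, div_div, div_le_div_iff₀ (by positivity) (by positivity)]
      have e2 : z ^ 2 ≤ z ^ 8 := pow_le_pow_right₀ hz1 (by norm_num)
      have e3 : 4 * K1 ≤ z := by linarith
      nlinarith
    have hdiff : |((n : ℝ) - n')| ≤ 1 / 2 := by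
      have e1 : ((n : ℝ) - n') = z * ((((n : ℝ) + 1 / 2) / z - PP (1 / z ^ 2)) -
          (((n' : ℝ) + 1 / 2) / z - PP (1 / z ^ 2))) := by
        field_simp; ring
      rw [e1, abs_mul, abs_of_pos hz]
      have e2 := abs_sub (((n : ℝ) + 1 / 2) / z - PP (1 / z ^ 2))
          (((n' : ℝ) + 1 / 2) / z - PP (1 / z ^ 2))
      have e3 : |(((n : ℝ) + 1 / 2) / z - PP (1 / z ^ 2)) -
          (((n' : ℝ) + 1 / 2) / z - PP (1 / z ^ 2))| ≤ 1 / 2 * (1 / z) := by linarith
      have e4 := mul_le_mul_of_nonneg_left e3 hz.le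
      have e5 : z * (1 / 2 * (1 / z)) = 1 / 2 := by field_simp
      linarith
    have h1 : |((n : ℤ) - (n' : ℤ) : ℤ)| < 1 := by
      have : ((|((n : ℤ) - (n' : ℤ) : ℤ)| : ℤ) : ℝ) < 1 := by
        push_cast
        linarith
      exact_mod_cast this
    rw [Int.abs_lt_one_iff] at h1
    omega
  -- the window property
  obtain ⟨X0, hX0⟩ : ∃ X0 : ℕ, ∀ X : ℕ, X0 ≤ X →
      64 * Real.exp (4 * C0) * Real.exp (-(X : ℝ) * (Real.pi / 2)) < 1 := by
    set M := 64 * Real.exp (4 * C0) with hM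
    have hMpos : 0 < M := by positivity
    refine ⟨⌈M⌉₊, fun X hX => ?_⟩
    have h1 : M ≤ X := (Nat.le_ceil M).trans (by exact_mod_cast hX)
    have h2 : (X : ℝ) * (Real.pi / 2) + 1 ≤ Real.exp ((X : ℝ) * (Real.pi / 2)) :=
      Real.add_one_le_exp _
    have h3 : (X : ℝ) < Real.exp ((X : ℝ) * (Real.pi / 2)) := by
      have : (X : ℝ) ≤ (X : ℝ) * (Real.pi / 2) := by
        have := Real.pi_gt_three
        have : (0 : ℝ) ≤ X := by positivity
        nlinarith
      linarith
    rw [neg_mul, Real.exp_neg, ← div_eq_mul_inv, div_lt_one (Real.exp_pos _)]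
    linarith
  have hwin : ∀ X : ℕ, X0 + 1 ≤ X → ∀ A : Finset ℤ,
      (∀ a ∈ A, a ∈ J ∧ (X : ℤ) < a ∧ a ≤ 2 * X) → (A.card : ℝ) ≤ 4 * Real.sqrt X := by
    intro X hX A hA
    refine sidon_like (by omega) A (fun a ha => (hA a ha).2) ?_
    intro d hd
    by_contra hcon
    push Not at hcon
    -- four elements
    have h4 : 4 ≤ (A.filter (fun a => a + d ∈ A)).card := hcon
    obtain ⟨B, hBsub, hBcard⟩ := Finset.exists_subset_card_eq h4
    set f := B.orderEmbOfFin hBcard with hf
    have hfmem : ∀ i, f i ∈ A ∧ f i + d ∈ A := by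
      intro i
      have := hBsub (B.orderEmbOfFin_mem hBcard i)
      rw [mem_filter] at this
      exact this
    have hfJ : ∀ i, f i ∈ J := fun i => (hA _ (hfmem i).1).1
    have hfJ' : ∀ i, f i + d ∈ J := fun i => (hA _ (hfmem i).2).1
    choose nu hnu1 hnu2 using hfJ
    choose nv hnv1 hnv2 using hfJ'
    have hge : ∀ n : ℕ, n0 ≤ n → N2 ≤ (n : ℝ) + 1 / 2 := by
      intro n hn
      have hn' : (n0 : ℝ) ≤ n := by exact_mod_cast hn
      have := mul_nonneg (by norm_num : (0:ℝ) ≤ 512) hK1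
      linarith
    have hlt : ∀ i j : Fin 4, i < j → f i < f j := fun i j hij => f.strictMono hij
    have hzr : ∀ i j : Fin 4, i < j → 20 * (zz (f i)) ^ 2 ≤ (zz (f j)) ^ 2 := by
      intro i j hij
      have h1 : (0 : ℤ) < f j - f i := by have := hlt i j hij; omega
      have h2 : zz (f j) = Real.exp (((f j - f i : ℤ) : ℝ) * (Real.pi / 2)) * zz (f i) := by
        simp only [hzz]
        rw [← Real.exp_add]
        congr 1
        push_cast
        ring
      rw [h2, mul_pow]
      exact mul_le_mul_of_nonneg_right (exp_pi_sq_pow h1) (by positivity)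
    have hG := hgap (Real.exp (d * (Real.pi / 2))) (fun i => zz (f i))
      (fun i => (nu i : ℝ) + 1 / 2) (fun i => (nv i : ℝ) + 1 / 2)
      (fun i => 2 * (nu i : ℤ) + 1) (fun i => 2 * (nv i : ℤ) + 1)
      (Real.exp_pos _) (exp_pi_sq_pow hd) (fun i => hzpos _)
      (fun i => hge _ (hnu1 i)) (fun i => hge _ (hnv1 i))
      (fun i => by push_cast; ring) (fun i => by push_cast; ring)
      (fun i => hclose _ _ (hnu2 i))
      (fun i => by
        have h2 : Real.exp (d * (Real.pi / 2)) * zz (f i) = zz (f i + d) := by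
          simp only [hzz]
          rw [← Real.exp_add]
          congr 1
          push_cast
          ring
        rw [h2]
        exact hclose _ _ (hnv2 i))
      (hzr 0 1 (by decide)) (hzr 1 2 (by decide)) (hzr 2 3 (by decide))
    -- evaluate
    have hval : 64 * Real.exp (d * (Real.pi / 2)) ^ 3 *
        ((zz (f 3)) ^ 2 / ((zz (f 0)) ^ 4 * (zz (f 1)) ^ 2)) =
        64 * Real.exp (4 * C0) * Real.exp (((3 * d + 2 * f 3 - 4 * f 0 - 2 * f 1 : ℤ) : ℝ) *
          (Real.pi / 2)) := by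
      simp only [hzz]
      simp only [← Real.exp_nat_mul]
      rw [← Real.exp_add, ← Real.exp_sub, mul_assoc, ← Real.exp_add, mul_assoc, ← Real.exp_add]
      congr 2
      push_cast
      ring
    rw [hval] at hG
    have hX0' := hX0 X (by omega)
    have hexple : Real.exp (((3 * d + 2 * f 3 - 4 * f 0 - 2 * f 1 : ℤ) : ℝ) * (Real.pi / 2)) ≤
        Real.exp (-(X : ℝ) * (Real.pi / 2)) := by
      apply Real.exp_le_exp.mpr
      apply mul_le_mul_of_nonneg_right _ (by positivity)
      have m0 := (hA _ (hfmem 0).1).2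
      have m1 := (hA _ (hfmem 1).1).2
      have m3 := (hA _ (hfmem 3).1).2
      have m3' := (hA _ (hfmem 3).2).2
      have : (3 * d + 2 * f 3 - 4 * f 0 - 2 * f 1 : ℤ) ≤ -(X : ℤ) := by omega
      exact_mod_cast this
    have := mul_le_mul_of_nonneg_left hexple (by positivity : 0 ≤ 64 * Real.exp (4 * C0))
    linarith
  have hdy := dyadic (J := J) (X0 := X0 + 1) (by omega) hwin
  -- constants
  set c1 : ℝ := (n0 : ℝ) + 2 * ((X0 + 1 : ℕ) : ℝ) + 2 with hc1
  have hc1pos : 0 ≤ c1 := by positivity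
  set c2 : ℝ := |C0| + 5 with hc2
  have hc2pos : 0 < c2 := by positivity
  have hL2 : 0 < Real.log 2 := Real.log_pos (by norm_num)
  refine ⟨c1 / Real.sqrt (Real.log 2) + 40 * Real.sqrt (c2 / Real.log 2 + 3), by positivity, ?_⟩
  intro N hN A hA
  have hNr : (2 : ℝ) ≤ N := by exact_mod_cast hN
  have hlogN : Real.log 2 ≤ Real.log N := Real.log_le_log (by norm_num) hNr
  have hlogN0 : 0 < Real.log N := lt_of_lt_of_le hL2 hlogN
  -- split
  set A1 := A.filter (fun n => n < n0) with hA1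
  set A2 := A.filter (fun n => ¬ n < n0) with hA2
  have hsplit : A1.card + A2.card = A.card := card_filter_add_card_filter_not _
  have hA1c : A1.card ≤ n0 := by
    have : A1 ⊆ range n0 := by
      intro n hn
      rw [hA1, mem_filter] at hn
      exact mem_range.mpr hn.2
    simpa using card_le_card this
  -- choose j
  have hch : ∀ n : ℕ, ∃ j : ℤ, n ∈ A2 → |SS n - j * (Real.pi / 2)| ≤
      K0 / ((n : ℝ) + 1 / 2) ^ 8 := by
    intro n
    by_cases hn : n ∈ A2
    · rw [hA2, mem_filter] at hn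
      obtain ⟨j, hj⟩ := (hA n hn.1).2
      exact ⟨j, fun _ => hj⟩
    · exact ⟨0, fun h => absurd h hn⟩
  choose jj hjj using hch
  have hA2n : ∀ n ∈ A2, n0 ≤ n ∧ n ≤ N := by
    intro n hn
    rw [hA2, mem_filter] at hn
    exact ⟨by omega, (hA n hn.1).1⟩
  have hcardimg : (A2.image jj).card = A2.card := by
    apply card_image_of_injOn
    intro n hn n' hn' h
    have e1 := hjj n hn
    have e2 := hjj n' hn'
    rw [← h] at e2
    exact hinj n n' (jj n) (hA2n n hn).1 (hA2n n' hn').1 e1 e2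
  set X : ℕ := ⌈|C0| + Real.log N + 2⌉₊ with hX
  have hXle : ∀ a ∈ A2.image jj, a ∈ J ∧ 0 < a ∧ a ≤ (X : ℤ) := by
    intro a ha
    rw [mem_image] at ha
    obtain ⟨n, hn, rfl⟩ := ha
    have e1 := hjj n hn
    obtain ⟨h1, h2⟩ := hA2n n hn
    obtain ⟨a1, a2, -⟩ := hinvJ n (jj n) h1 e1
    have hnr : (n0 : ℝ) ≤ n := by exact_mod_cast h1
    have hnN : (n : ℝ) ≤ N := by exact_mod_cast h2
    refine ⟨⟨n, h1, e1⟩, ?_, ?_⟩
    · -- positivity
      have hz2 : Real.exp (-C0) < zz (jj n) := by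
        have := mul_nonneg (by norm_num : (0:ℝ) ≤ 512) hK1
        linarith
      simp only [hzz] at hz2
      rw [Real.exp_lt_exp] at hz2
      have h3 : 0 < ((jj n : ℤ) : ℝ) * (Real.pi / 2) := by linarith
      have h4 : 0 < ((jj n : ℤ) : ℝ) := (mul_pos_iff_of_pos_right (by positivity)).mp h3
      exact_mod_cast h4
    · -- upper bound
      have h3 : Real.log (zz (jj n)) ≤ Real.log (2 * ((N : ℝ) + 1 / 2)) :=
        Real.log_le_log (hzpos _) (by linarith)
      rw [hlogz] at h3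
      have h4 : Real.log (2 * ((N : ℝ) + 1 / 2)) ≤ Real.log N + 2 := by
        have h5 : 2 * ((N : ℝ) + 1 / 2) ≤ N * 3 := by linarith
        have h6 : Real.log (2 * ((N : ℝ) + 1 / 2)) ≤ Real.log (N * 3) :=
          Real.log_le_log (by positivity) h5
        have hN0 : (N : ℝ) ≠ 0 := by
          have : (0 : ℝ) < N := by linarith
          exact this.ne'
        rw [Real.log_mul (x := (N : ℝ)) (y := 3) hN0 (by norm_num)] at h6
        have h7 : Real.log 3 ≤ 2 := by
          have := Real.log_le_sub_one_of_pos (by norm_num : (0 : ℝ) < 3)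
          linarith
        linarith
      have h8 : ((jj n : ℤ) : ℝ) * (Real.pi / 2) ≤ |C0| + Real.log N + 2 := by
        have := le_abs_self C0
        linarith
      have h9 : ((jj n : ℤ) : ℝ) ≤ |C0| + Real.log N + 2 := by
        by_cases hj : 0 ≤ ((jj n : ℤ) : ℝ)
        · have := Real.pi_gt_three
          nlinarith
        · push Not at hj
          have := abs_nonneg C0
          linarith
      have h10 : ((jj n : ℤ) : ℝ) ≤ ((X : ℤ) : ℝ) := by
        refine h9.trans ?_
        rw [hX]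
        push_cast
        exact Nat.le_ceil _
      exact_mod_cast h10
  have hfin := hdy X (A2.image jj) hXle
  rw [hcardimg] at hfin
  have hXreal : (X : ℝ) ≤ (c2 / Real.log 2 + 3) * Real.log N := by
    have h1 : (X : ℝ) < |C0| + Real.log N + 2 + 1 := by
      rw [hX]
      exact Nat.ceil_lt_add_one (by positivity)
    have h2 : c2 ≤ c2 / Real.log 2 * Real.log N := by
      rw [div_mul_eq_mul_div, le_div_iff₀ hL2]
      exact mul_le_mul_of_nonneg_left hlogN hc2pos.le
    rw [add_mul]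
    rw [hc2] at h2 ⊢
    linarith
  have hsq : Real.sqrt X ≤ Real.sqrt (c2 / Real.log 2 + 3) * Real.sqrt (Real.log N) := by
    rw [← Real.sqrt_mul (by positivity)]
    exact Real.sqrt_le_sqrt hXreal
  have hc1N : c1 ≤ c1 / Real.sqrt (Real.log 2) * Real.sqrt (Real.log N) := by
    have h0 : 0 < Real.sqrt (Real.log 2) := Real.sqrt_pos.mpr hL2
    rw [div_mul_eq_mul_div, le_div_iff₀ h0]
    exact mul_le_mul_of_nonneg_left (Real.sqrt_le_sqrt hlogN) hc1pos
  have hcast : (A.card : ℝ) = A1.card + A2.card := by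
    rw [← hsplit]; push_cast; ring
  have hA1r : (A1.card : ℝ) ≤ n0 := by exact_mod_cast hA1c
  rw [hcast, add_mul]
  have h40 := mul_le_mul_of_nonneg_left hsq (by norm_num : (0 : ℝ) ≤ 40)
  rw [hc1] at hc1N
  linarith

end Pool.Agent.H87.TanSum
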