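import Mathlib

/-!
If the real part of `∏ (1 + i k)` divides the imaginary part then the quotient is huge.
-/

namespace Pool.Agent.H87.TanSum

open Finset

/-- `ω_n = ∏ (1 + k²)` -/
def om (n : ℕ) : ℕ := ∏ k ∈ Icc 1 n, (1 + k ^ 2)

lemma om_pos (n : ℕ) : 0 < om n := by
  unfold om
  exact Finset.prod_pos (fun k _ => by positivity)

lemma fact_sq_le (n : ℕ) : (n.factorial) ^ 2 ≤ om n := by
  unfold om
  have h0 : n.factorial = ∏ k ∈ Icc 1 n, k := by
    rw [← Finset.prod_Ico_id_eq_factorial]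
    rfl
  rw [h0, ← Finset.prod_pow]
  exact Finset.prod_le_prod' (fun k _ => by omega)

lemma card_cong {q n : ℕ} (U : Finset ℕ) (hU : ∀ k ∈ U, k ≤ n)
    (hc : ∀ k ∈ U, ∀ k' ∈ U, k ≡ k' [MOD q]) : U.card ≤ n / q + 1 := by
  have h : U.card ≤ (range (n / q + 1)).card := by
    apply card_le_card_of_injOn (fun k => k / q)
    · intro k hk
      have := hU k hk
      simp only [coe_range, Set.mem_Iio]
      exact Nat.lt_succ_of_le (Nat.div_le_div_right this)
    · intro k hk k' hk' hkk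
      have h1 : k % q = k' % q := hc k hk k' hk'
      have h2 := Nat.div_add_mod k q
      have h3 := Nat.div_add_mod k' q
      simp only at hkk
      rw [← h2, ← h3, h1, hkk]
  simpa using h

lemma two_roots {p i k k0 : ℕ} (hp : p.Prime) (hp2 : p ≠ 2) (hi : 1 ≤ i)
    (hk : p ^ i ∣ 1 + k ^ 2) (hk0 : p ^ i ∣ 1 + k0 ^ 2) :
    ((p : ℤ) ^ i ∣ (k : ℤ) - k0) ∨ ((p : ℤ) ^ i ∣ (k : ℤ) + k0) := by
  have hpi : Prime (p : ℤ) := Nat.prime_iff_prime_int.mp hp
  have h1 : (p : ℤ) ^ i ∣ ((k : ℤ) - k0) * ((k : ℤ) + k0) := by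
    have e1 : ((p : ℤ) ^ i) ∣ 1 + (k : ℤ) ^ 2 := by exact_mod_cast hk
    have e2 : ((p : ℤ) ^ i) ∣ 1 + (k0 : ℤ) ^ 2 := by exact_mod_cast hk0
    have := dvd_sub e1 e2
    convert! this using 1
    ring
  by_cases hd : (p : ℤ) ∣ (k : ℤ) - k0
  · -- then `p` does not divide the sum
    left
    have hnd : ¬ (p : ℤ) ∣ (k : ℤ) + k0 := by
      intro hs
      have h2 : (p : ℤ) ∣ 2 * k0 := by
        have := dvd_sub hs hd
        convert! this using 1
        ring
      rcases hpi.dvd_or_dvd h2 with h3 | h3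
      · have h4 : p ∣ 2 := by exact_mod_cast h3
        exact hp2 ((Nat.prime_dvd_prime_iff_eq hp Nat.prime_two).mp h4)
      · have h4 : p ∣ k0 := by exact_mod_cast h3
        have h5 : p ∣ 1 + k0 ^ 2 := (dvd_pow_self p (by omega)).trans hk0
        have h6 : p ∣ 1 := (Nat.dvd_add_left (dvd_pow h4 (by norm_num))).mp h5
        exact hp.one_lt.ne' (Nat.dvd_one.mp h6)
    have hcop : IsCoprime ((p : ℤ) ^ i) ((k : ℤ) + k0) :=
      (IsCoprime.pow_left ((Prime.coprime_iff_not_dvd hpi).mpr hnd))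
    exact hcop.dvd_of_dvd_mul_right h1
  · right
    have hcop : IsCoprime ((p : ℤ) ^ i) ((k : ℤ) - k0) :=
      (IsCoprime.pow_left ((Prime.coprime_iff_not_dvd hpi).mpr hd))
    exact hcop.dvd_of_dvd_mul_left h1

lemma count_sol {p i : ℕ} (hp : p.Prime) (hi : 1 ≤ i) (n : ℕ) :
    ((Icc 1 n).filter (fun k => p ^ i ∣ 1 + k ^ 2)).card ≤ 2 * (n / p ^ i + 1) := by
  classical
  by_cases hp2 : p = 2
  · subst hp2
    by_cases hi1 : i = 1
    · subst hi1
      have := card_filter_le (Icc 1 n) (fun k => 2 ^ 1 ∣ 1 + k ^ 2)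
      simp only [Nat.card_Icc, Nat.add_sub_cancel] at this
      omega
    · have : (Icc 1 n).filter (fun k => 2 ^ i ∣ 1 + k ^ 2) = ∅ := by
        apply filter_eq_empty_iff.mpr
        intro k _ hk
        have h4 : 2 ^ 2 ∣ 1 + k ^ 2 := (pow_dvd_pow 2 (by omega)).trans hk
        have h5 : (1 + k ^ 2) % 4 = 0 := Nat.mod_eq_zero_of_dvd (by simpa using h4)
        have h6 : k % 4 = 0 ∨ k % 4 = 1 ∨ k % 4 = 2 ∨ k % 4 = 3 := by omega
        rw [Nat.add_mod, Nat.pow_mod] at h5
        rcases h6 with h | h | h | h <;> rw [h] at h5 <;> norm_num at h5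
      rw [this]
      simp
  · set U := (Icc 1 n).filter (fun k => p ^ i ∣ 1 + k ^ 2) with hU
    rcases U.eq_empty_or_nonempty with h0 | ⟨k0, hk0⟩
    · rw [h0]; simp
    · have hk0' : p ^ i ∣ 1 + k0 ^ 2 := by
        rw [hU, mem_filter] at hk0; exact hk0.2
      set U1 := U.filter (fun k : ℕ => ((p : ℤ) ^ i ∣ (k : ℤ) - k0)) with hU1
      set U2 := U.filter (fun k : ℕ => ((p : ℤ) ^ i ∣ (k : ℤ) + k0)) with hU2
      have hsub : U ⊆ U1 ∪ U2 := by
        intro k hk
        have hk' : p ^ i ∣ 1 + k ^ 2 := by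
          rw [hU, mem_filter] at hk; exact hk.2
        rcases two_roots hp hp2 hi hk' hk0' with h | h
        · exact mem_union_left _ (mem_filter.mpr ⟨hk, h⟩)
        · exact mem_union_right _ (mem_filter.mpr ⟨hk, h⟩)
      have hle : ∀ k ∈ U, k ≤ n := by
        intro k hk
        rw [hU, mem_filter, mem_Icc] at hk; exact hk.1.2
      have hcong : ∀ k k' : ℕ, ((p : ℤ) ^ i ∣ (k : ℤ) - k') → k ≡ k' [MOD p ^ i] := by
        intro k k' h
        apply Nat.ModEq.symm
        rw [Nat.modEq_iff_dvd]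
        push_cast
        exact h
      have c1 : U1.card ≤ n / p ^ i + 1 := by
        apply card_cong
        · intro k hk; exact hle k (mem_filter.mp hk).1
        · intro k hk k' hk'
          apply hcong
          have e1 := (mem_filter.mp hk).2
          have e2 := (mem_filter.mp hk').2
          have := dvd_sub e1 e2
          convert! this using 1
          ring
      have c2 : U2.card ≤ n / p ^ i + 1 := by
        apply card_cong
        · intro k hk; exact hle k (mem_filter.mp hk).1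
        · intro k hk k' hk'
          apply hcong
          have e1 := (mem_filter.mp hk).2
          have e2 := (mem_filter.mp hk').2
          have := dvd_sub e1 e2
          convert! this using 1
          ring
      have c3 := card_le_card hsub
      have c4 := card_union_le U1 U2
      omega

lemma fact_om {p : ℕ} (hp : p.Prime) (n : ℕ) :
    (om n).factorization p = ∑ i ∈ Ico 1 (Nat.log p (1 + n ^ 2) + 1),
      ((Icc 1 n).filter (fun k => p ^ i ∣ 1 + k ^ 2)).card := by
  unfold om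
  rw [Nat.factorization_prod (fun k _ => by positivity)]
  rw [Finset.sum_apply']
  have h : ∀ k ∈ Icc 1 n, (1 + k ^ 2).factorization p =
      ∑ i ∈ Ico 1 (Nat.log p (1 + n ^ 2) + 1), if p ^ i ∣ 1 + k ^ 2 then 1 else 0 := by
    intro k hk
    rw [mem_Icc] at hk
    rw [Nat.factorization_eq_card_pow_dvd_of_lt (b := Nat.log p (1 + n ^ 2) + 1) hp (by positivity)
      ?_, card_filter]
    refine lt_of_le_of_lt ?_ (Nat.lt_pow_succ_log_self hp.one_lt (1 + n ^ 2))
    have : k ^ 2 ≤ n ^ 2 := Nat.pow_le_pow_left hk.2 2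
    omega
  rw [sum_congr rfl h, sum_comm]
  refine sum_congr rfl (fun i _ => ?_)
  rw [card_filter]

lemma fact_om_le {p : ℕ} (hp : p.Prime) (n : ℕ) :
    (om n).factorization p ≤ 2 * (n.factorial.factorization p + Nat.log p (1 + n ^ 2)) := by
  rw [fact_om hp]
  have hlog : Nat.log p n < Nat.log p (1 + n ^ 2) + 1 := by
    have : Nat.log p n ≤ Nat.log p (1 + n ^ 2) := by
      apply Nat.log_mono_right
      nlinarith [Nat.zero_le n, sq_nonneg ((n : ℤ) - 1)]
    omega
  rw [Nat.factorization_factorial hp hlog]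
  have h1 : ∑ i ∈ Ico 1 (Nat.log p (1 + n ^ 2) + 1),
      ((Icc 1 n).filter (fun k => p ^ i ∣ 1 + k ^ 2)).card ≤
      ∑ i ∈ Ico 1 (Nat.log p (1 + n ^ 2) + 1), 2 * (n / p ^ i + 1) := by
    refine sum_le_sum (fun i hi => ?_)
    exact count_sol hp (mem_Ico.mp hi).1 n
  refine h1.trans (le_of_eq ?_)
  rw [← mul_sum, sum_add_distrib]
  simp

lemma fact_om_big {p : ℕ} (hp : p.Prime) {n : ℕ} (hn : 1 ≤ n) (hpn : 2 * n < p) :
    (om n).factorization p ≤ 1 := by
  rw [fact_om hp]
  have hlog : Nat.log p (1 + n ^ 2) < 2 := by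
    apply Nat.log_lt_of_lt_pow (by positivity)
    nlinarith
  have hsub : Ico 1 (Nat.log p (1 + n ^ 2) + 1) ⊆ {1} := by
    intro i hi
    rw [mem_Ico] at hi
    rw [mem_singleton]
    omega
  have h1 := sum_le_sum_of_subset (f := fun i => ((Icc 1 n).filter
    (fun k => p ^ i ∣ 1 + k ^ 2)).card) hsub
  refine h1.trans ?_
  rw [sum_singleton]
  apply card_le_one.mpr
  intro k hk k' hk'
  rw [mem_filter, mem_Icc] at hk hk'
  have hp2 : p ≠ 2 := by omega
  rcases two_roots hp hp2 le_rfl hk.2 hk'.2 with h | h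
  · rw [pow_one] at h
    have h2 : |(k : ℤ) - k'| < p := by
      rw [abs_lt]; omega
    have h3 := Int.eq_zero_of_abs_lt_dvd h h2
    omega
  · rw [pow_one] at h
    have h2 : (p : ℤ) ≤ (k : ℤ) + k' := Int.le_of_dvd (by omega) h
    omega

lemma fact_om_three {p : ℕ} (hp : p.Prime) (hp4 : p % 4 = 3) (n : ℕ) :
    (om n).factorization p = 0 := by
  apply Nat.factorization_eq_zero_of_not_dvd
  intro h
  unfold om at h
  rw [hp.prime.dvd_finsetProd_iff] at h
  obtain ⟨k, -, hk⟩ := h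
  haveI : Fact p.Prime := ⟨hp⟩
  have h1 : ((k : ZMod p)) ^ 2 = -1 := by
    have : ((1 + k ^ 2 : ℕ) : ZMod p) = 0 := (ZMod.natCast_eq_zero_iff _ _).mpr hk
    push_cast at this
    linear_combination this
  exact ZMod.mod_four_ne_three_of_sq_eq_neg_one h1 hp4

/-- the primes `≡ 3 (mod 4)` up to `n` -/
def TP (n : ℕ) : Finset ℕ := (range (n + 1)).filter (fun p => p.Prime ∧ p % 4 = 3)

/-- the primes up to `2n` -/
def RP (n : ℕ) : Finset ℕ := (range (2 * n + 1)).filter Nat.Prime

lemma fact_prod_pow (T : Finset ℕ) (hT : ∀ p ∈ T, p.Prime) (f : ℕ → ℕ) (q : ℕ) :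
    (∏ p ∈ T, p ^ f p).factorization q = if q ∈ T then f q else 0 := by
  classical
  rw [Nat.factorization_prod (fun p hp => pow_ne_zero _ (hT p hp).ne_zero)]
  rw [Finset.sum_apply']
  have h : ∀ p ∈ T, (p ^ f p).factorization q = if p = q then f q else 0 := by
    intro p hp
    rw [(hT p hp).factorization_pow]
    rw [Finsupp.single_apply]
    split_ifs with h
    · rw [h]
    · rfl
  rw [sum_congr rfl h, sum_ite_eq']

lemma dvd_key {n a : ℕ} (hn : 1 ≤ n) (ha : a ^ 2 ∣ om n) :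
    a * ∏ p ∈ TP n, p ^ (n.factorial.factorization p) ∣
      n.factorial * ∏ p ∈ RP n, p ^ (Nat.log p (1 + n ^ 2)) := by
  have hTP : ∀ p ∈ TP n, p.Prime := fun p hp => (mem_filter.mp hp).2.1
  have hRP : ∀ p ∈ RP n, p.Prime := fun p hp => (mem_filter.mp hp).2
  have hom := om_pos n
  have ha0 : a ≠ 0 := by
    rintro rfl
    simp at ha
    omega
  have h1 : (∏ p ∈ TP n, p ^ (n.factorial.factorization p)) ≠ 0 :=
    prod_ne_zero_iff.mpr (fun p hp => pow_ne_zero _ (hTP p hp).ne_zero)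
  have h2 : (∏ p ∈ RP n, p ^ (Nat.log p (1 + n ^ 2))) ≠ 0 :=
    prod_ne_zero_iff.mpr (fun p hp => pow_ne_zero _ (hRP p hp).ne_zero)
  have h3 : n.factorial ≠ 0 := Nat.factorial_ne_zero n
  rw [← Nat.factorization_prime_le_iff_dvd (mul_ne_zero ha0 h1) (mul_ne_zero h3 h2)]
  intro p hp
  rw [Nat.factorization_mul ha0 h1, Nat.factorization_mul h3 h2, Finsupp.add_apply,
    Finsupp.add_apply, fact_prod_pow _ hTP, fact_prod_pow _ hRP]
  have hap : 2 * a.factorization p ≤ (om n).factorization p := by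
    have := (Nat.factorization_le_iff_dvd (pow_ne_zero 2 ha0) hom.ne').mpr ha
    have h4 := this p
    rw [Nat.factorization_pow] at h4
    simpa using h4
  by_cases hpT : p % 4 = 3
  · have := fact_om_three hp hpT n
    have h0 : a.factorization p = 0 := by omega
    rw [h0]
    split_ifs <;> omega
  · have hnT : p ∉ TP n := by
      intro h
      exact hpT (mem_filter.mp h).2.2
    rw [if_neg hnT]
    by_cases hpn : 2 * n < p
    · have := fact_om_big hp hn hpn
      have h0 : a.factorization p = 0 := by omega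
      rw [h0]
      omega
    · have hR : p ∈ RP n := mem_filter.mpr ⟨mem_range.mpr (by omega), hp⟩
      rw [if_pos hR]
      have := fact_om_le hp n
      omega

lemma R_le (n : ℕ) : ∏ p ∈ RP n, p ^ (Nat.log p (1 + n ^ 2)) ≤
    (1 + n ^ 2) ^ (Nat.primeCounting (2 * n)) := by
  have h1 : ∏ p ∈ RP n, p ^ (Nat.log p (1 + n ^ 2)) ≤ ∏ p ∈ RP n, (1 + n ^ 2) := by
    apply Finset.prod_le_prod'
    intro p _
    exact Nat.pow_log_le_self p (by positivity)
  refine h1.trans (le_of_eq ?_)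
  rw [prod_const]
  congr 1
  unfold RP
  rw [Nat.primeCounting, Nat.primeCounting', Nat.count_eq_card_filter_range]

/-- the key inequality -/
lemma key_ineq {n a m : ℕ} (hn : 1 ≤ n) (h : a ^ 2 * (1 + m ^ 2) = om n) :
    (∏ p ∈ TP n, p ^ (n.factorial.factorization p)) ^ 2 ≤
      (1 + m ^ 2) * ((1 + n ^ 2) ^ (Nat.primeCounting (2 * n))) ^ 2 := by
  have hd := dvd_key hn (a := a) ⟨1 + m ^ 2, h.symm⟩
  set P := ∏ p ∈ TP n, p ^ (n.factorial.factorization p) with hP
  set R := ∏ p ∈ RP n, p ^ (Nat.log p (1 + n ^ 2)) with hR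
  have hRP : ∀ p ∈ RP n, p.Prime := fun p hp => (mem_filter.mp hp).2
  have hRpos : 0 < R := Finset.prod_pos (fun p hp => pow_pos (hRP p hp).pos _)
  have h1 : a * P ≤ n.factorial * R := Nat.le_of_dvd (by positivity) hd
  have h2 : (n.factorial) ^ 2 ≤ a ^ 2 * (1 + m ^ 2) := by rw [h]; exact fact_sq_le n
  have h3 : (n.factorial) ^ 2 * P ^ 2 ≤ (n.factorial) ^ 2 * ((1 + m ^ 2) * R ^ 2) := by
    calc (n.factorial) ^ 2 * P ^ 2 ≤ a ^ 2 * (1 + m ^ 2) * P ^ 2 := Nat.mul_le_mul_right _ h2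
      _ = (1 + m ^ 2) * (a * P) ^ 2 := by ring
      _ ≤ (1 + m ^ 2) * (n.factorial * R) ^ 2 :=
        Nat.mul_le_mul_left _ (Nat.pow_le_pow_left h1 2)
      _ = _ := by ring
  have h4 : P ^ 2 ≤ (1 + m ^ 2) * R ^ 2 :=
    Nat.le_of_mul_le_mul_left h3 (by positivity)
  refine h4.trans (Nat.mul_le_mul_left _ (Nat.pow_le_pow_left (R_le n) 2))

/-- the divergent sum -/
lemma sum_three_tendsto : Filter.Tendsto (fun n : ℕ => ∑ p ∈ TP n, Real.log p / p)
    Filter.atTop Filter.atTop := by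
  have hu : IsUnit (3 : ZMod 4) := by decide
  have h := ArithmeticFunction.vonMangoldt.not_summable_residueClass_prime_div hu
  rw [not_summable_iff_tendsto_nat_atTop_of_nonneg] at h
  · have h2 := h.comp (Filter.tendsto_add_atTop_nat 1)
    refine h2.congr (fun n => ?_)
    simp only [Function.comp]
    unfold TP
    rw [sum_filter]
    refine sum_congr rfl (fun p _ => ?_)
    by_cases hp : p.Prime
    · rw [if_pos hp]
      by_cases h3 : p % 4 = 3
      · rw [if_pos ⟨hp, h3⟩]
        congr 1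
        have : (p : ZMod 4) = 3 := by
          have : ((p : ℕ) : ZMod 4) = ((3 : ℕ) : ZMod 4) := by
            rw [ZMod.natCast_eq_natCast_iff']
            omega
          exact_mod_cast this
        rw [ArithmeticFunction.vonMangoldt.residueClass, Set.indicator_of_mem (by exact this)]
        exact ArithmeticFunction.vonMangoldt_apply_prime hp
      · rw [if_neg (fun h => h3 h.2)]
        have : ¬ (p : ZMod 4) = 3 := by
          intro h
          have : ((p : ℕ) : ZMod 4) = ((3 : ℕ) : ZMod 4) := by exact_mod_cast h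
          rw [ZMod.natCast_eq_natCast_iff'] at this
          omega
        rw [ArithmeticFunction.vonMangoldt.residueClass, Set.indicator_of_notMem (by exact this)]
        simp
    · rw [if_neg hp, if_neg (fun h => hp h.1)]
      simp
  · intro n
    split_ifs
    · exact div_nonneg (ArithmeticFunction.vonMangoldt.residueClass_nonneg _ _) (by positivity)
    · simp

lemma log_P_ge {n : ℕ} :
    (n : ℝ) * (∑ p ∈ TP n, Real.log p / p) - Real.log 4 * n ≤
      Real.log ((∏ p ∈ TP n, p ^ (n.factorial.factorization p) : ℕ) : ℝ) := by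
  have hTP : ∀ p ∈ TP n, p.Prime := fun p hp => (mem_filter.mp hp).2.1
  push_cast
  rw [Real.log_prod (fun p hp => by
    have := (hTP p hp).pos
    positivity)]
  have h1 : ∀ p ∈ TP n, (n : ℝ) * (Real.log p / p) - Real.log p ≤
      Real.log ((p : ℝ) ^ (n.factorial.factorization p)) := by
    intro p hp
    rw [Real.log_pow]
    have hpp := hTP p hp
    have hpn : p ≤ n := by
      have := mem_range.mp (mem_filter.mp hp).1
      omega
    have hv : n / p ≤ n.factorial.factorization p := by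
      rw [Nat.factorization_factorial hpp (Nat.lt_add_one (Nat.log p n))]
      have h2 : 1 ∈ Ico 1 (Nat.log p n + 1) := by
        rw [mem_Ico]
        refine ⟨le_rfl, ?_⟩
        have : 0 < Nat.log p n := Nat.log_pos hpp.one_lt hpn
        omega
      have h3 := single_le_sum (f := fun i => n / p ^ i) (fun i _ => Nat.zero_le _) h2
      simpa using h3
    have hv2 : (n : ℝ) / p - 1 ≤ (n.factorial.factorization p : ℝ) := by
      have h3 : (n : ℝ) / p < ((n / p : ℕ) : ℝ) + 1 := by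
        have := Nat.lt_floor_add_one ((n : ℝ) / p)
        rwa [Nat.floor_div_eq_div] at this
      have h4 : ((n / p : ℕ) : ℝ) ≤ (n.factorial.factorization p : ℝ) := by exact_mod_cast hv
      linarith
    have hlog : 0 ≤ Real.log (p : ℝ) := Real.log_natCast_nonneg p
    have := mul_le_mul_of_nonneg_right hv2 hlog
    refine le_trans (le_of_eq ?_) this
    ring
  have h2 : ∑ p ∈ TP n, Real.log (p : ℝ) ≤ Real.log 4 * n := by
    have h3 := Chebyshev.theta_le_log4_mul_x (x := (n : ℝ)) (by positivity)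
    refine le_trans ?_ h3
    unfold Chebyshev.theta
    rw [Nat.floor_natCast]
    apply sum_le_sum_of_subset_of_nonneg
    · intro p hp
      rw [mem_filter, mem_Ioc]
      have := mem_range.mp (mem_filter.mp hp).1
      exact ⟨⟨(hTP p hp).pos, by omega⟩, hTP p hp⟩
    · intro p _ _
      exact Real.log_natCast_nonneg p
  have h3 := sum_le_sum h1
  rw [sum_sub_distrib, ← mul_sum] at h3
  linarith

lemma pi_bound : ∀ᶠ n : ℕ in Filter.atTop,
    (Nat.primeCounting (2 * n) : ℝ) * Real.log (1 + (n : ℝ) ^ 2) ≤ 10 * n := by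
  have h := Chebyshev.eventually_primeCounting_le (ε := 1) one_pos
  have h2 : Filter.Tendsto (fun n : ℕ => 2 * (n : ℝ)) Filter.atTop Filter.atTop :=
    Filter.Tendsto.const_mul_atTop (by norm_num) tendsto_natCast_atTop_atTop
  have h3 := h2.eventually h
  filter_upwards [h3, Filter.eventually_ge_atTop 2] with n hn hn2
  have hn2' : (2 : ℝ) ≤ n := by exact_mod_cast hn2
  have e1 : ⌊(2 * (n : ℝ))⌋₊ = 2 * n := by
    have : (2 * (n : ℝ)) = ((2 * n : ℕ) : ℝ) := by push_cast; ring
    rw [this, Nat.floor_natCast]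
  rw [e1] at hn
  have hlog : 0 < Real.log (2 * (n : ℝ)) := Real.log_pos (by linarith)
  have e2 : Real.log (1 + (n : ℝ) ^ 2) ≤ 2 * Real.log (2 * (n : ℝ)) := by
    rw [← Real.log_rpow (by positivity)]
    apply Real.log_le_log (by positivity)
    rw [show ((2 : ℝ)) = ((2 : ℕ) : ℝ) by norm_num, Real.rpow_natCast]
    push_cast
    nlinarith
  have e3 : Real.log 4 ≤ 1.4 := by
    have : Real.log 4 = 2 * Real.log 2 := by
      rw [show (4 : ℝ) = 2 ^ 2 by norm_num, Real.log_pow]; norm_num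
    rw [this]
    have := Real.log_two_lt_d9
    linarith
  have e4 : 0 ≤ Real.log (1 + (n : ℝ) ^ 2) := Real.log_nonneg (by nlinarith)
  calc (Nat.primeCounting (2 * n) : ℝ) * Real.log (1 + (n : ℝ) ^ 2)
      ≤ ((Real.log 4 + 1) * (2 * (n : ℝ)) / Real.log (2 * (n : ℝ))) * (2 * Real.log (2 * (n : ℝ))) :=
        mul_le_mul hn e2 e4 (by
          have : 0 ≤ Real.log 4 := Real.log_nonneg (by norm_num)
          positivity)
    _ = 4 * (Real.log 4 + 1) * n := by field_simp; ring
    _ ≤ 10 * n := by nlinarith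

/-- if the quotient is an integer `m`, then `|m| ≥ n⁸` -/
theorem magnitude : ∀ᶠ n : ℕ in Filter.atTop, ∀ a m : ℕ, a ^ 2 * (1 + m ^ 2) = om n →
    n ^ 8 ≤ m := by
  have h1 := sum_three_tendsto.eventually_ge_atTop 20
  filter_upwards [h1, pi_bound, Filter.eventually_ge_atTop (2 * Nat.factorial 17)]
    with n hT hpi hn a m h
  have hn1 : 1 ≤ n := by
    have : 0 < Nat.factorial 17 := Nat.factorial_pos 17
    omega
  have hkey := key_ineq hn1 h
  have hTP : ∀ p ∈ TP n, p.Prime := fun p hp => (mem_filter.mp hp).2.1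
  set P := ∏ p ∈ TP n, p ^ (n.factorial.factorization p) with hP
  have hPpos : 0 < P := Finset.prod_pos (fun p hp => pow_pos (hTP p hp).pos _)
  have hPr : (0 : ℝ) < (P : ℝ) := by exact_mod_cast hPpos
  have hkey' : ((P : ℝ)) ^ 2 ≤ (1 + (m : ℝ) ^ 2) *
      ((1 + (n : ℝ) ^ 2) ^ (Nat.primeCounting (2 * n))) ^ 2 := by exact_mod_cast hkey
  have hlog := Real.log_le_log (by positivity) hkey'
  rw [Real.log_pow, Real.log_mul (by positivity) (by positivity), Real.log_pow, Real.log_pow]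
    at hlog
  push_cast at hlog
  have hPge := log_P_ge (n := n)
  rw [← hP] at hPge
  have e3 : Real.log 4 ≤ 1.4 := by
    have : Real.log 4 = 2 * Real.log 2 := by
      rw [show (4 : ℝ) = 2 ^ 2 by norm_num, Real.log_pow]; norm_num
    rw [this]
    have := Real.log_two_lt_d9
    linarith
  have hnr : (1 : ℝ) ≤ n := by exact_mod_cast hn1
  have h2 : (n : ℝ) * 20 ≤ (n : ℝ) * (∑ p ∈ TP n, Real.log p / p) :=
    mul_le_mul_of_nonneg_left hT (by positivity)
  have h3 : Real.log 4 * (n : ℝ) ≤ 1.4 * n := mul_le_mul_of_nonneg_right e3 (by positivity)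
  have h4 : (n : ℝ) ≤ Real.log (1 + (m : ℝ) ^ 2) := by linarith
  have h5 : Real.exp (n : ℝ) ≤ 1 + (m : ℝ) ^ 2 := by
    rw [← Real.exp_log (by positivity : (0 : ℝ) < 1 + (m : ℝ) ^ 2)]
    exact Real.exp_le_exp.mpr h4
  have h6 : (n : ℝ) ^ 17 / (Nat.factorial 17 : ℝ) ≤ Real.exp n :=
    Real.pow_div_factorial_le_exp (n : ℝ) (by positivity) 17
  have h7 : 2 * (n : ℝ) ^ 16 ≤ (n : ℝ) ^ 17 / (Nat.factorial 17 : ℝ) := by
    rw [le_div_iff₀ (by positivity)]
    have : 2 * (Nat.factorial 17 : ℝ) ≤ n := by exact_mod_cast hn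
    calc 2 * (n : ℝ) ^ 16 * (Nat.factorial 17 : ℝ) = (2 * (Nat.factorial 17 : ℝ)) * (n : ℝ) ^ 16 := by
          ring
      _ ≤ n * (n : ℝ) ^ 16 := mul_le_mul_of_nonneg_right this (by positivity)
      _ = (n : ℝ) ^ 17 := by ring
  have h8 : (1 : ℝ) ≤ (n : ℝ) ^ 16 := one_le_pow₀ hnr
  have h9 : (n : ℝ) ^ 16 ≤ (m : ℝ) ^ 2 := by linarith
  have h10 : n ^ 16 ≤ m ^ 2 := by exact_mod_cast h9
  have h11 : (n ^ 8) ^ 2 ≤ m ^ 2 := by
    calc (n ^ 8) ^ 2 = n ^ 16 := by ring
      _ ≤ m ^ 2 := h10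
  exact (Nat.pow_le_pow_iff_left (by norm_num)).mp h11

end Pool.Agent.H87.TanSum
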