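import Mathlib
import Pool.Agent.H87.TanSum.Count
import Pool.Agent.H87.TanSum.Mag

/-!
From the Gaussian integers `Z_n = ∏ (1 + i k)` to the sums `∑ arctan (1/k)`.
-/

namespace Pool.Agent.H87.TanSum

open Finset

/-- `Z_n` -/
def ZZ (n : ℕ) : GaussianInt := ∏ k ∈ Finset.Icc 1 n, (⟨1, (k : ℤ)⟩ : GaussianInt)

lemma ZZ_succ (n : ℕ) : (ZZ (n + 1)).re = (ZZ n).re - ((n : ℤ) + 1) * (ZZ n).im ∧
    (ZZ (n + 1)).im = (ZZ n).im + ((n : ℤ) + 1) * (ZZ n).re := by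
  unfold ZZ
  rw [Finset.prod_Icc_succ_top (by omega)]
  constructor
  · rw [Zsqrtd.re_mul]
    push_cast
    ring
  · rw [Zsqrtd.im_mul]
    push_cast
    ring

lemma ZZ_zero : (ZZ 0).re = 1 ∧ (ZZ 0).im = 0 := by
  unfold ZZ
  simp

lemma ZZ_norm (n : ℕ) : (ZZ n).re ^ 2 + (ZZ n).im ^ 2 = (om n : ℤ) := by
  induction n with
  | zero =>
    rw [ZZ_zero.1, ZZ_zero.2]
    simp [om]
  | succ n ih =>
    have h1 : om (n + 1) = om n * (1 + (n + 1) ^ 2) := by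
      unfold om
      rw [Finset.prod_Icc_succ_top (by omega)]
    rw [(ZZ_succ n).1, (ZZ_succ n).2, h1]
    push_cast
    rw [← ih]
    ring

lemma polar (n : ℕ) : ∃ R : ℝ, 0 < R ∧
    (((ZZ n).re : ℤ) : ℝ) = R * Real.cos (n * (Real.pi / 2) - SS n) ∧
    (((ZZ n).im : ℤ) : ℝ) = R * Real.sin (n * (Real.pi / 2) - SS n) := by
  induction n with
  | zero =>
    refine ⟨1, one_pos, ?_, ?_⟩
    · rw [ZZ_zero.1]; simp [SS]
    · rw [ZZ_zero.2]; simp [SS]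
  | succ n ih =>
    obtain ⟨R, hR, h1, h2⟩ := ih
    set x : ℝ := (n : ℝ) + 1 with hx
    have hxpos : 0 < x := by rw [hx]; positivity
    have hs : 0 < Real.sqrt (1 + x ^ 2) := by positivity
    have hang : ((n + 1 : ℕ) : ℝ) * (Real.pi / 2) - SS (n + 1) =
        (n * (Real.pi / 2) - SS n) + Real.arctan x := by
      have e1 : SS (n + 1) = SS n + Real.arctan (1 / x) := by
        unfold SS
        rw [sum_range_succ]
      have e2 : Real.arctan (1 / x) = Real.pi / 2 - Real.arctan x := by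
        rw [one_div]
        exact Real.arctan_inv_of_pos hxpos
      rw [e1, e2]
      push_cast
      ring
    refine ⟨R * Real.sqrt (1 + x ^ 2), by positivity, ?_, ?_⟩
    · rw [hang, Real.cos_add, Real.cos_arctan, Real.sin_arctan, (ZZ_succ n).1]
      push_cast
      rw [h1, h2, ← hx]
      field_simp
    · rw [hang, Real.sin_add, Real.cos_arctan, Real.sin_arctan, (ZZ_succ n).2]
      push_cast
      rw [h1, h2, ← hx]
      field_simp

lemma near_zero {t e : ℝ} (h : |Real.sin t| ≤ e) : ∃ l : ℤ, |t - l * Real.pi| ≤ 2 * e := by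
  have hpi := Real.pi_pos
  refine ⟨round (t / Real.pi), ?_⟩
  have h1 := abs_sub_round (t / Real.pi)
  set l : ℤ := round (t / Real.pi) with hl
  have h2 : t - l * Real.pi = (t / Real.pi - l) * Real.pi := by field_simp
  have h3 : |t - l * Real.pi| ≤ Real.pi / 2 := by
    rw [h2, abs_mul, abs_of_pos hpi]
    nlinarith
  have h4 := Real.mul_abs_le_abs_sin h3
  have h5 : |Real.sin (t - l * Real.pi)| = |Real.sin t| := by
    rw [Real.sin_sub_int_mul_pi, abs_mul]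
    have : |((-1 : ℝ)) ^ l| = 1 := by
      rw [abs_zpow]; simp
    rw [this, one_mul]
  rw [h5] at h4
  have h6 : |t - l * Real.pi| ≤ Real.pi / 2 * e := by
    have := h4.trans h
    rw [div_mul_eq_mul_div, div_le_iff₀ hpi] at this
    linarith
  have he : 0 ≤ e := (abs_nonneg _).trans h
  have := Real.pi_le_four
  nlinarith

lemma near_of_small {n : ℕ} (hn : 1 ≤ n)
    (h : (n : ℤ) ^ 8 * |(ZZ n).re| ≤ |(ZZ n).im| ∨ (n : ℤ) ^ 8 * |(ZZ n).im| ≤ |(ZZ n).re|) :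
    Near 512 n := by
  obtain ⟨R, hR, h1, h2⟩ := polar n
  set t : ℝ := n * (Real.pi / 2) - SS n with ht
  have hn' : (1 : ℝ) ≤ n := by exact_mod_cast hn
  have hn8 : (0 : ℝ) < (n : ℝ) ^ 8 := by positivity
  have hbd : 2 * (1 / (n : ℝ) ^ 8) ≤ 512 / ((n : ℝ) + 1 / 2) ^ 8 := by
    rw [mul_one_div, div_le_div_iff₀ hn8 (by positivity)]
    have : ((n : ℝ) + 1 / 2) ^ 8 ≤ (2 * (n : ℝ)) ^ 8 :=
      pow_le_pow_left₀ (by positivity) (by linarith) 8
    rw [mul_pow] at this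
    norm_num at this ⊢
    linarith
  rcases h with h | h
  · have hr : (n : ℝ) ^ 8 * |(((ZZ n).re : ℤ) : ℝ)| ≤ |(((ZZ n).im : ℤ) : ℝ)| := by
      exact_mod_cast h
    rw [h1, h2, abs_mul, abs_mul, abs_of_pos hR] at hr
    have hs := Real.abs_sin_le_one t
    have hc : |Real.cos t| ≤ 1 / (n : ℝ) ^ 8 := by
      rw [le_div_iff₀ hn8]
      have : R * ((n : ℝ) ^ 8 * |Real.cos t|) ≤ R * 1 := by nlinarith
      have := le_of_mul_le_mul_left this hR
      linarith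
    have hc' : |Real.sin (t + Real.pi / 2)| ≤ 1 / (n : ℝ) ^ 8 := by
      rw [Real.sin_add_pi_div_two]; exact hc
    obtain ⟨l, hl⟩ := near_zero hc'
    refine ⟨(n : ℤ) + 1 - 2 * l, ?_⟩
    have e : SS n - (((n : ℤ) + 1 - 2 * l : ℤ) : ℝ) * (Real.pi / 2) =
        -(t + Real.pi / 2 - l * Real.pi) := by
      rw [ht]; push_cast; ring
    rw [e, abs_neg]
    exact hl.trans hbd
  · have hr : (n : ℝ) ^ 8 * |(((ZZ n).im : ℤ) : ℝ)| ≤ |(((ZZ n).re : ℤ) : ℝ)| := by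
      exact_mod_cast h
    rw [h1, h2, abs_mul, abs_mul, abs_of_pos hR] at hr
    have hs := Real.abs_cos_le_one t
    have hc : |Real.sin t| ≤ 1 / (n : ℝ) ^ 8 := by
      rw [le_div_iff₀ hn8]
      have : R * ((n : ℝ) ^ 8 * |Real.sin t|) ≤ R * 1 := by nlinarith
      have := le_of_mul_le_mul_left this hR
      linarith
    obtain ⟨l, hl⟩ := near_zero hc
    refine ⟨(n : ℤ) - 2 * l, ?_⟩
    have e : SS n - (((n : ℤ) - 2 * l : ℤ) : ℝ) * (Real.pi / 2) = -(t - l * Real.pi) := by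
      rw [ht]; push_cast; ring
    rw [e, abs_neg]
    exact hl.trans hbd

theorem count_extreme : ∃ C : ℝ, 0 < C ∧ ∀ N : ℕ, 2 ≤ N →
    (((Icc 1 N).filter (fun n : ℕ => (n : ℤ) ^ 8 * |(ZZ n).re| ≤ |(ZZ n).im| ∨
      (n : ℤ) ^ 8 * |(ZZ n).im| ≤ |(ZZ n).re|)).card : ℝ) ≤ C * Real.sqrt (Real.log N) := by
  obtain ⟨C, hC, h⟩ := near_count 512 (by norm_num)
  refine ⟨C, hC, fun N hN => h N hN _ ?_⟩
  intro n hn
  rw [mem_filter, mem_Icc] at hn
  exact ⟨hn.1.2, near_of_small hn.1.1 hn.2⟩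

theorem integer_extreme : ∃ n1 : ℕ, ∀ n : ℕ, n1 ≤ n → (ZZ n).re ∣ (ZZ n).im →
    (n : ℤ) ^ 8 * |(ZZ n).re| ≤ |(ZZ n).im| := by
  obtain ⟨n1, h⟩ := Filter.eventually_atTop.mp magnitude
  refine ⟨n1, fun n hn hd => ?_⟩
  obtain ⟨m, hm⟩ := hd
  have h1 := ZZ_norm n
  rw [hm] at h1
  have h2 : ((ZZ n).re.natAbs) ^ 2 * (1 + m.natAbs ^ 2) = om n := by
    zify
    rw [sq_abs, sq_abs, ← h1]
    ring
  have h3 := h n hn _ _ h2
  rw [hm, abs_mul, mul_comm]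
  apply mul_le_mul_of_nonneg_left _ (abs_nonneg _)
  have h4 : ((n ^ 8 : ℕ) : ℤ) ≤ (m.natAbs : ℤ) := by exact_mod_cast h3
  rw [Int.natCast_natAbs] at h4
  push_cast at h4
  exact h4

theorem count_integer : ∃ C : ℝ, 0 < C ∧ ∀ N : ℕ, 2 ≤ N →
    (((Icc 1 N).filter (fun n : ℕ => (ZZ n).re ∣ (ZZ n).im)).card : ℝ) ≤
      C * Real.sqrt (Real.log N) := by
  obtain ⟨C, hC, h⟩ := count_extreme
  obtain ⟨n1, hn1⟩ := integer_extreme
  have hL2 : 0 < Real.log 2 := Real.log_pos (by norm_num)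
  have hs2 : 0 < Real.sqrt (Real.log 2) := Real.sqrt_pos.mpr hL2
  refine ⟨(n1 : ℝ) / Real.sqrt (Real.log 2) + C, by positivity, fun N hN => ?_⟩
  have hNr : (2 : ℝ) ≤ N := by exact_mod_cast hN
  have hlogN : Real.log 2 ≤ Real.log N := Real.log_le_log (by norm_num) hNr
  have hsub : (Icc 1 N).filter (fun n : ℕ => (ZZ n).re ∣ (ZZ n).im) ⊆ range n1 ∪
      (Icc 1 N).filter (fun n : ℕ => (n : ℤ) ^ 8 * |(ZZ n).re| ≤ |(ZZ n).im| ∨
      (n : ℤ) ^ 8 * |(ZZ n).im| ≤ |(ZZ n).re|) := by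
    intro n hn
    rw [mem_filter] at hn
    by_cases hlt : n < n1
    · exact mem_union_left _ (mem_range.mpr hlt)
    · exact mem_union_right _ (mem_filter.mpr ⟨hn.1, Or.inl (hn1 n (by omega) hn.2)⟩)
  have h1 := (card_le_card hsub).trans (card_union_le _ _)
  rw [card_range] at h1
  have h2 : (((Icc 1 N).filter (fun n : ℕ => (ZZ n).re ∣ (ZZ n).im)).card : ℝ) ≤ n1 +
      (((Icc 1 N).filter (fun n : ℕ => (n : ℤ) ^ 8 * |(ZZ n).re| ≤ |(ZZ n).im| ∨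
      (n : ℤ) ^ 8 * |(ZZ n).im| ≤ |(ZZ n).re|)).card : ℝ) := by exact_mod_cast h1
  have h3 := h N hN
  have h4 : (n1 : ℝ) ≤ (n1 : ℝ) / Real.sqrt (Real.log 2) * Real.sqrt (Real.log N) := by
    rw [div_mul_eq_mul_div, le_div_iff₀ hs2]
    exact mul_le_mul_of_nonneg_left (Real.sqrt_le_sqrt hlogN) (by positivity)
  rw [add_mul]
  linarith

end Pool.Agent.H87.TanSum
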